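import Pool.Agent.MP_c1891a_nt.H43.Spec

/-
Cyclotomic fields and their extensions by two algebraic numbers.
-/

namespace Pool.Agent.MP_c1891a_nt.H43

open Finset Polynomial Module
open scoped IntermediateField

theorem field_sum_prim (g : ℕ) (ω : ℂ) (hg : 0 < g) (hω : IsPrimitiveRoot ω g) (G : ℂ → ℝ) :
    ∑ x ∈ primitiveRoots g ℂ, G x = ∑ j ∈ Cop g, G (ω ^ j) := by
  have : NeZero g := ⟨hg.ne'⟩
  refine (sum_bij (fun j _ => ω ^ j) ?_ ?_ ?_ fun _ _ => rfl).symm
  · intro j hj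
    exact (mem_primitiveRoots hg).2 ((hω.pow_iff_coprime hg j).2 (mem_filter.1 hj).2)
  · intro i hi j hj h
    exact hω.pow_inj (mem_range.1 (mem_filter.1 hi).1) (mem_range.1 (mem_filter.1 hj).1) h
  · intro x hx
    obtain ⟨i, h1, h2, h3⟩ := hω.isPrimitiveRoot_iff.1 ((mem_primitiveRoots hg).1 hx)
    exact ⟨i, mem_filter.2 ⟨mem_range.2 h1, h2⟩, h3⟩

theorem sField : SField := by
  refine ⟨fun g ω hg hω => ?_, fun L _ _ ι p q hp hq => ?_⟩
  · have : NeZero g := ⟨hg.ne'⟩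
    have : IsCyclotomicExtension {g} ℚ ℚ⟮ω⟯ := by
      change IsCyclotomicExtension {g} ℚ (ℚ⟮ω⟯).toSubalgebra
      rw [IntermediateField.adjoin_simple_toSubalgebra_of_isAlgebraic
        ((hω.isIntegral hg).tower_top (A := ℚ)).isAlgebraic]
      exact hω.adjoin_isCyclotomicExtension ℚ
    have hN : NumberField ℚ⟮ω⟯ := IsCyclotomicExtension.numberField {g} ℚ _
    have hirr : Irreducible (cyclotomic g ℚ) := cyclotomic.irreducible_rat hg
    have hω' : IsPrimitiveRoot (IntermediateField.AdjoinSimple.gen ℚ ω) g :=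
      IsPrimitiveRoot.of_map_of_injective (f := (ℚ⟮ω⟯).val) hω (ℚ⟮ω⟯).val.injective
    refine ⟨ℚ⟮ω⟯, inferInstance, hN, (ℚ⟮ω⟯).val.toRingHom, IntermediateField.AdjoinSimple.gen ℚ ω,
      rfl, IsCyclotomicExtension.finrank _ hirr, fun G => ?_⟩
    rw [← field_sum_prim g ω hg hω G, ← sum_coe_sort (primitiveRoots g ℂ)]
    exact Fintype.sum_equiv ((RingHom.equivRatAlgHom _ ℂ).trans
      (hω'.embeddingsEquivPrimitiveRoots ℂ hirr)) _ _ fun σ => rfl
  · let _ : Algebra L ℂ := ι.toAlgebra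
    have : IsScalarTower ℚ L ℂ := IsScalarTower.of_algebraMap_eq fun x => by simp
    have hp' : IsIntegral L p := hp.isIntegral.tower_top
    have hq' : IsIntegral L q := hq.isIntegral.tower_top
    have : FiniteDimensional L L⟮p, q⟯ := IntermediateField.finiteDimensional_adjoin fun x hx => by
      rcases hx with rfl | rfl
      · exact hp'
      · exact hq'
    refine ⟨L⟮p, q⟯, inferInstance, NumberField.of_module_finite L _, inferInstance,
      (L⟮p, q⟯).val.toRingHom, ⟨p, IntermediateField.subset_adjoin L _ (Or.inl rfl)⟩,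
      ⟨q, IntermediateField.subset_adjoin L _ (Or.inr rfl)⟩, fun a => rfl, rfl, rfl,
      fun σ τ h1 h2 h3 => RingHom.ext fun ⟨x, hx⟩ => ?_⟩
    induction hx using IntermediateField.adjoin_induction with
    | mem x hx =>
      rcases hx with rfl | rfl
      · exact h2
      · exact h3
    | algebraMap x => exact h1 x
    | add x y hx hy ihx ihy =>
      exact (map_add σ ⟨x, hx⟩ ⟨y, hy⟩).trans
        ((congrArg₂ (· + ·) ihx ihy).trans (map_add τ ⟨x, hx⟩ ⟨y, hy⟩).symm)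
    | inv x hx ih =>
      exact (map_inv₀ σ ⟨x, hx⟩).trans ((congrArg (·⁻¹) ih).trans (map_inv₀ τ ⟨x, hx⟩).symm)
    | mul x y hx hy ihx ihy =>
      exact (map_mul σ ⟨x, hx⟩ ⟨y, hy⟩).trans
        ((congrArg₂ (· * ·) ihx ihy).trans (map_mul τ ⟨x, hx⟩ ⟨y, hy⟩).symm)

end Pool.Agent.MP_c1891a_nt.H43
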