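import Pool.Agent.MP_c1891a_nt.H79.Spec
import Pool.Agent.MP_089fcb_co.H21.ZeroLemma
import Pool.Agent.MP_089fcb_co.H21.DetBound

/-!
Zero lemma and analytic upper bound for the complex interpolation determinant.
-/

namespace Pool.Agent.MP_c1891a_nt.H41ZU

open Finset Polynomial Matrix
open Pool.Agent.MP_c1891a_nt.H79
open Pool.Agent.MP_089fcb_co.H21 (det_perm sum_ge_of_inj hasSum_exp')

theorem exists_minor {ι κ : Type} [Fintype ι] [Fintype κ] [DecidableEq ι] (A : Matrix ι κ ℂ)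
    (h : ∀ v : ι → ℂ, (∀ j, ∑ i, v i * A i j = 0) → ∀ i, v i = 0) :
    ∃ f : ι → κ, (Matrix.of fun i j => A i (f j)).det ≠ 0 := by
  classical
  have hrow : LinearIndependent ℂ A.row := by
    rw [Fintype.linearIndependent_iff]
    intro g hg
    apply h g
    intro j
    have := congrFun hg j
    simpa [Finset.sum_apply, Matrix.row] using this
  obtain ⟨κ', a, ha, hsp, hli⟩ := exists_linearIndependent' ℂ A.col
  have : Finite κ' := Finite.of_injective a ha
  have : Fintype κ' := Fintype.ofFinite κ'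
  have h1 : A.rank = Fintype.card ι := hrow.rank_matrix
  have h2 := finrank_span_eq_card hli
  rw [hsp, ← Matrix.rank_eq_finrank_span_cols, h1] at h2
  let e : ι ≃ κ' := Fintype.equivOfCardEq h2
  refine ⟨a ∘ e, ?_⟩
  have h3 : LinearIndependent ℂ (Matrix.of fun i j => A i ((a ∘ e) j)).col :=
    hli.comp e e.injective
  have h4 := Matrix.linearIndependent_cols_iff_isUnit.1 h3
  exact ((Matrix.isUnit_iff_isUnit_det _).1 h4).ne_zero

theorem zero_poly {L : ℕ} (D : ℕ) (Q : Fin L → ℂ[X]) (hQ : ∀ i, (Q i).natDegree ≤ D)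
    (x1 y1 : Fin L → ℂ) (hy1 : Function.Injective y1) (hy0 : ∀ j, y1 j ≠ 0)
    (Z : Finset ℂ) (hZ : D * L < Z.card)
    (hvan : ∀ x ∈ Z, ∃ y : ℂ, y ≠ 0 ∧
      ∀ j, ∑ i, (Q i).eval (x + x1 j) * (y1 j * y) ^ (i : ℕ) = 0) :
    ∀ i, Q i = 0 := by
  classical
  by_contra hne
  push Not at hne
  obtain ⟨i0, hi0⟩ := hne
  let Q' : Fin L → ℂ[X] := fun i => if Q i = 0 then 1 else Q i
  have hQ'0 : ∀ i, Q' i ≠ 0 := by
    intro i
    by_cases h : Q i = 0 <;> simp [Q', h]
  have hQ'd : ∀ i, (Q' i).natDegree ≤ D := by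
    intro i
    by_cases h : Q i = 0
    · simp [Q', h]
    · simpa [Q', h] using hQ i
  let A : Matrix (Fin L) (Fin L) ℂ[X] :=
    Matrix.of fun i j => C (y1 j ^ (i : ℕ)) * taylor (x1 j) (Q' i)
  have hA0 : ∀ i j, A i j ≠ 0 := by
    intro i j
    refine mul_ne_zero (C_ne_zero.2 (pow_ne_zero _ (hy0 j))) ?_
    exact fun h => hQ'0 i ((taylor_eq_zero (x1 j) (Q' i)).1 h)
  have hAd : ∀ i j, (A i j).natDegree = (Q' i).natDegree := by
    intro i j
    change (C (y1 j ^ (i : ℕ)) * taylor (x1 j) (Q' i)).natDegree = _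
    rw [natDegree_C_mul (pow_ne_zero _ (hy0 j)), natDegree_taylor]
  have hAl : ∀ i j, (A i j).leadingCoeff = y1 j ^ (i : ℕ) * (Q' i).leadingCoeff := by
    intro i j
    change (C (y1 j ^ (i : ℕ)) * taylor (x1 j) (Q' i)).leadingCoeff = _
    rw [leadingCoeff_mul, leadingCoeff_C, leadingCoeff_taylor]
  set d := ∑ i, (Q' i).natDegree with hd
  have hpd : ∀ σ : Equiv.Perm (Fin L), (∏ i, A i (σ i)).natDegree = d := by
    intro σ
    rw [natDegree_prod _ _ (fun i _ => hA0 i (σ i))]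
    exact Finset.sum_congr rfl fun i _ => hAd _ _
  have hdeg : A.det.natDegree ≤ d := by
    rw [det_perm]
    refine natDegree_sum_le_of_forall_le _ _ fun σ _ => ?_
    refine natDegree_mul_le.trans ?_
    rw [natDegree_intCast, zero_add, hpd]
  have hcoeff : A.det.coeff d
      = (∏ i, (Q' i).leadingCoeff) * (Matrix.vandermonde y1).det := by
    rw [det_perm, finsetSum_coeff, ← Matrix.det_transpose, det_perm, Finset.mul_sum]
    refine Finset.sum_congr rfl fun σ _ => ?_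
    rw [← map_intCast (C : ℂ →+* ℂ[X]), coeff_C_mul, ← hpd σ, coeff_natDegree, leadingCoeff_prod]
    simp_rw [hAl]
    rw [Finset.prod_mul_distrib]
    simp only [Matrix.transpose_apply, Matrix.vandermonde_apply]
    ring
  have hdet0 : A.det ≠ 0 := by
    intro h
    rw [h, coeff_zero] at hcoeff
    refine mul_ne_zero ?_ (Matrix.det_vandermonde_ne_zero_iff.2 hy1) hcoeff.symm
    exact Finset.prod_ne_zero_iff.2 fun i _ => leadingCoeff_ne_zero.2 (hQ'0 i)
  have hroots : Z.val ⊆ A.det.roots := by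
    intro x hx
    obtain ⟨y, hy, hxy⟩ := hvan x hx
    rw [mem_roots hdet0, IsRoot.def, ← coe_evalRingHom, RingHom.map_det,
      ← Matrix.exists_vecMul_eq_zero_iff]
    refine ⟨fun i => if Q i = 0 then 0 else y ^ (i : ℕ), ?_, ?_⟩
    · intro h
      have := congrFun h i0
      simp [hi0, hy] at this
    · funext j
      refine Eq.trans ?_ (hxy j)
      simp only [Matrix.vecMul, dotProduct, RingHom.mapMatrix_apply, Matrix.map_apply]
      refine Finset.sum_congr rfl fun i _ => ?_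
      by_cases h : Q i = 0
      · simp [h]
      · simp only [A, Q', h, if_false, Matrix.of_apply, coe_evalRingHom, eval_mul, eval_C,
          taylor_eval]
        ring
  have h1 := card_le_degree_of_subset_roots hroots
  have h2 : d ≤ D * L := by
    calc d ≤ ∑ _i : Fin L, D := Finset.sum_le_sum fun i _ => hQ'd i
      _ = D * L := by simp [mul_comm]
  omega

theorem pow_inj {α : ℂ} (h0 : α ≠ 0) (h : ∀ n : ℕ, 0 < n → α ^ n ≠ 1) {a b : ℕ}
    (hab : α ^ a = α ^ b) : a = b := by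
  have key : ∀ a b : ℕ, a < b → α ^ a ≠ α ^ b := by
    intro a b hlt he
    obtain ⟨c, rfl⟩ := Nat.exists_eq_add_of_lt hlt
    apply h (c + 1) (by omega)
    rw [add_assoc, pow_add] at he
    exact (mul_left_cancel₀ (pow_ne_zero a h0) (he.symm.trans (mul_one _).symm))
  rcases lt_trichotomy a b with h1 | h1 | h1
  · exact absurd hab (key _ _ h1)
  · exact h1
  · exact absurd hab.symm (key _ _ h1)

theorem zero_lemma (α : ℂ) (N m K L R W : ℕ) (h0 : α ≠ 0) (h1 : ∀ n : ℕ, 0 < n → α ^ n ≠ 1)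
    (hcop : Nat.Coprime m N) (hW : W ≤ N) (hcard : (K - 1) * L < R * W)
    (v : Fin K × Fin L → ℂ)
    (hv : ∀ j : Fin R × Fin (L + W), ∑ i : Fin K × Fin L,
      v i * ((((j.1 : ℕ) * N + (j.2 : ℕ) * m : ℕ) : ℂ) ^ (i.1 : ℕ)
        * α ^ ((i.2 : ℕ) * (j.2 : ℕ))) = 0) :
    ∀ i, v i = 0 := by
  classical
  let Q : Fin L → ℂ[X] := fun l => ∑ k : Fin K, C (v (k, l)) * X ^ (k : ℕ)
  have hQd : ∀ l, (Q l).natDegree ≤ K - 1 := by
    intro l
    refine natDegree_sum_le_of_forall_le _ _ fun k _ => ?_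
    refine (natDegree_C_mul_X_pow_le _ _).trans ?_
    have := k.2
    omega
  let g : ℕ × ℕ → ℂ := fun rs => ((rs.1 * N + rs.2 * m : ℕ) : ℂ)
  have hginj : Set.InjOn g ((range R ×ˢ range W : Finset (ℕ × ℕ)) : Set (ℕ × ℕ)) := by
    rintro ⟨r, s⟩ h1 ⟨r', s'⟩ h2 h
    have h3 : r * N + s * m = r' * N + s' * m := Nat.cast_injective (R := ℂ) h
    have hs : s < N := by
      have := Finset.mem_range.1 (Finset.mem_product.1 (Finset.mem_coe.1 h1)).2
      exact lt_of_lt_of_le this hW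
    have hs' : s' < N := by
      have := Finset.mem_range.1 (Finset.mem_product.1 (Finset.mem_coe.1 h2)).2
      exact lt_of_lt_of_le this hW
    have h4 : s * m ≡ s' * m [MOD N] := by
      have e1 : (s * m + r * N) % N = (s * m) % N := Nat.add_mul_mod_self_right _ _ _
      have e2 : (s' * m + r' * N) % N = (s' * m) % N := Nat.add_mul_mod_self_right _ _ _
      unfold Nat.ModEq
      rw [← e1, ← e2, add_comm, h3, add_comm]
    have h5 : s ≡ s' [MOD N] := Nat.ModEq.cancel_right_of_coprime hcop.symm h4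
    have h6 : s = s' := Nat.ModEq.eq_of_lt_of_lt h5 hs hs'
    subst h6
    have h7 : r * N = r' * N := by omega
    have h8 : r = r' := Nat.eq_of_mul_eq_mul_right (by omega) h7
    rw [h8]
  have hQ := zero_poly (K - 1) Q hQd (fun j => ((j : ℕ) * m : ℕ)) (fun j => α ^ (j : ℕ))
    (fun j j' h => Fin.ext (pow_inj h0 h1 h))
    (fun j => pow_ne_zero _ h0) ((range R ×ˢ range W).image g)
    (by rw [Finset.card_image_of_injOn hginj, Finset.card_product, Finset.card_range,
      Finset.card_range]; exact hcard)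
    (by
      intro x hx
      obtain ⟨⟨r, s⟩, hrs, rfl⟩ := Finset.mem_image.1 hx
      have hr := Finset.mem_range.1 (Finset.mem_product.1 hrs).1
      have hs := Finset.mem_range.1 (Finset.mem_product.1 hrs).2
      refine ⟨α ^ s, pow_ne_zero _ h0, fun j => ?_⟩
      have hj := j.2
      have h1 := hv (⟨r, hr⟩, ⟨j + s, by simp only at hs; omega⟩)
      rw [Fintype.sum_prod_type, Finset.sum_comm] at h1
      rw [← h1]
      refine Finset.sum_congr rfl fun l _ => ?_
      simp only [Q, eval_finsetSum, eval_mul, eval_C, eval_pow, eval_X, Finset.sum_mul, g]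
      refine Finset.sum_congr rfl fun k _ => ?_
      push_cast
      ring)
  rintro ⟨k, l⟩
  have h1 := congrArg (fun P => coeff P (k : ℕ)) (hQ l)
  simp only [Q, finsetSum_coeff, coeff_C_mul, coeff_X_pow, coeff_zero] at h1
  rw [Finset.sum_eq_single k] at h1
  · simpa using h1
  · intro k' _ hk
    have : ¬ (k : ℕ) = k' := fun h => hk (Fin.ext h.symm)
    simp [this]
  · simp

theorem szl : SZL := by
  intro α N m K L R W h0 h1 hcop hW hcard
  exact exists_minor
    (Matrix.of fun (i : Fin K × Fin L) (j : Fin R × Fin (L + W)) =>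
      (((j.1 : ℕ) * N + (j.2 : ℕ) * m : ℕ) : ℂ) ^ (i.1 : ℕ) * α ^ ((i.2 : ℕ) * (j.2 : ℕ)))
    (fun v hv => zero_lemma α N m K L R W h0 h1 hcop hW hcard v hv)

theorem det_bound {n : Type*} [Fintype n] [DecidableEq n] (N : ℕ) (hN : Fintype.card n = N)
    (ρ : ℝ) (hρ : 1 ≤ ρ) (c : n → ℕ → ℂ) (ζ : n → ℂ) (E A : Matrix n n ℂ) (W : n → n → ℝ)
    (hA : ∀ i j, A i j = ∑ m ∈ range N, c i m * ζ j ^ m + E i j)
    (hW : ∀ i j, ∑ m ∈ range N, ρ ^ m * ‖c i m * ζ j ^ m‖ + ρ ^ N * ‖E i j‖ ≤ W i j) :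
    ρ ^ (N * (N - 1) / 2) * ‖A.det‖ ≤ ∑ σ : Equiv.Perm n, ∏ i, W i (σ i) := by
  have hρ0 : 0 ≤ ρ := by linarith
  let T : n → ℕ → n → ℂ := fun i m j => if m < N then c i m * ζ j ^ m else E i j
  have hAT : ∀ i j, A i j = ∑ m ∈ range (N + 1), T i m j := by
    intro i j
    rw [hA, Finset.sum_range_succ]
    congr 1
    · refine Finset.sum_congr rfl fun m hm => ?_
      simp [T, Finset.mem_range.1 hm]
    · simp [T]
  have hWT : ∀ i j, ∑ m ∈ range (N + 1), ρ ^ m * ‖T i m j‖ ≤ W i j := by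
    intro i j
    refine le_trans (le_of_eq ?_) (hW i j)
    rw [Finset.sum_range_succ]
    congr 1
    · refine Finset.sum_congr rfl fun m hm => ?_
      simp [T, Finset.mem_range.1 hm]
    · simp [T]
  have hdet : A.det = ∑ τ ∈ Fintype.piFinset (fun _ : n => range (N + 1)),
      (Matrix.of fun i j => T i (τ i) j).det := by
    rw [det_perm]
    simp_rw [hAT, Finset.prod_univ_sum, Finset.mul_sum]
    rw [Finset.sum_comm]
    refine Finset.sum_congr rfl fun τ _ => ?_
    rw [det_perm]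
    simp
  have hτ : ∀ τ ∈ Fintype.piFinset (fun _ : n => range (N + 1)),
      ρ ^ (N * (N - 1) / 2) * ‖(Matrix.of fun i j => T i (τ i) j).det‖
        ≤ ∑ σ : Equiv.Perm n, ∏ i, ρ ^ τ i * ‖T i (τ i) (σ i)‖ := by
    intro τ hτ
    have hnn : 0 ≤ ∑ σ : Equiv.Perm n, ∏ i, ρ ^ τ i * ‖T i (τ i) (σ i)‖ :=
      Finset.sum_nonneg fun σ _ => Finset.prod_nonneg fun i _ => by positivity
    by_cases hinj : ∀ i i', τ i = τ i' → τ i < N → i = i'
    · have hsum := sum_ge_of_inj N hN τ (fun i => by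
        have := Finset.mem_range.1 (Fintype.mem_piFinset.1 hτ i)
        omega) hinj
      have h1 : ‖(Matrix.of fun i j => T i (τ i) j).det‖
          ≤ ∑ σ : Equiv.Perm n, ∏ i, ‖T i (τ i) (σ i)‖ := by
        rw [det_perm]
        refine (norm_sum_le _ _).trans (Finset.sum_le_sum fun σ _ => ?_)
        rw [norm_mul, norm_prod]
        have : ‖((Equiv.Perm.sign σ : ℤ) : ℂ)‖ = 1 := by
          rcases Int.units_eq_one_or (Equiv.Perm.sign σ) with h | h <;> simp [h]
        rw [this, one_mul]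
        simp
      calc ρ ^ (N * (N - 1) / 2) * ‖(Matrix.of fun i j => T i (τ i) j).det‖
          ≤ ρ ^ (∑ i, τ i) * ∑ σ : Equiv.Perm n, ∏ i, ‖T i (τ i) (σ i)‖ :=
            mul_le_mul (pow_le_pow_right₀ hρ hsum) h1 (norm_nonneg _) (by positivity)
        _ = _ := by
            rw [Finset.mul_sum]
            refine Finset.sum_congr rfl fun σ _ => ?_
            rw [Finset.prod_mul_distrib, Finset.prod_pow_eq_pow_sum]
    · push Not at hinj
      obtain ⟨i, i', h1, h2, h3⟩ := hinj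
      have hz : (Matrix.of fun i j => T i (τ i) j).det = 0 := by
        have e : (Matrix.of fun i j => T i (τ i) j) = Matrix.of fun i j =>
            (if τ i < N then c i (τ i) else 1) *
              (Matrix.of fun i j => if τ i < N then ζ j ^ τ i else E i j) i j := by
          ext a b
          by_cases h : τ a < N <;> simp [T, h]
        rw [e, Matrix.det_mul_column, Matrix.det_zero_of_row_eq h3, mul_zero]
        funext b
        have h2' : τ i' < N := h1 ▸ h2
        simp [h1, h2']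
      rw [hz]
      simpa using hnn
  calc ρ ^ (N * (N - 1) / 2) * ‖A.det‖
      ≤ ρ ^ (N * (N - 1) / 2) * ∑ τ ∈ Fintype.piFinset (fun _ : n => range (N + 1)),
          ‖(Matrix.of fun i j => T i (τ i) j).det‖ := by
        rw [hdet]
        exact mul_le_mul_of_nonneg_left (norm_sum_le _ _) (by positivity)
    _ ≤ ∑ τ ∈ Fintype.piFinset (fun _ : n => range (N + 1)),
          ∑ σ : Equiv.Perm n, ∏ i, ρ ^ τ i * ‖T i (τ i) (σ i)‖ := by
        rw [Finset.mul_sum]
        exact Finset.sum_le_sum hτ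
    _ = ∑ σ : Equiv.Perm n, ∏ i, ∑ m ∈ range (N + 1), ρ ^ m * ‖T i m (σ i)‖ := by
        rw [Finset.sum_comm]
        refine Finset.sum_congr rfl fun σ _ => ?_
        rw [Finset.prod_univ_sum]
    _ ≤ _ := by
        refine Finset.sum_le_sum fun σ _ => Finset.prod_le_prod (fun i _ => ?_) fun i _ => hWT _ _
        exact Finset.sum_nonneg fun m _ => by positivity

theorem hasSum_cexp (x : ℂ) :
    HasSum (fun t : ℕ => x ^ t / (t.factorial : ℂ)) (Complex.exp x) := by
  rw [Complex.exp_eq_exp_ℂ]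
  exact NormedSpace.expSeries_div_hasSum_exp x

theorem exp_tail (y : ℂ) (ρ : ℝ) (hρ : 1 ≤ ρ) (n : ℕ) :
    ∑ t ∈ range n, (ρ * ‖y‖) ^ t / (t.factorial : ℝ)
      + ρ ^ n * ‖Complex.exp y - ∑ t ∈ range n, y ^ t / (t.factorial : ℂ)‖
      ≤ Real.exp (ρ * ‖y‖) := by
  have hρ0 : 0 ≤ ρ := by linarith
  have h1 := (hasSum_nat_add_iff' n).2 (hasSum_cexp y)
  have h2 := (hasSum_nat_add_iff' n).2 (hasSum_exp' (ρ * ‖y‖))
  have h3 := h1.mul_left ((ρ : ℂ) ^ n)
  have h4 : ‖(ρ : ℂ) ^ n * (Complex.exp y - ∑ t ∈ range n, y ^ t / (t.factorial : ℂ))‖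
      ≤ Real.exp (ρ * ‖y‖) - ∑ t ∈ range n, (ρ * ‖y‖) ^ t / (t.factorial : ℝ) := by
    refine h3.norm_le_of_bounded h2 fun t => ?_
    rw [norm_mul, norm_div, norm_pow, norm_pow, Complex.norm_real, Real.norm_of_nonneg hρ0,
      mul_pow, Complex.norm_natCast, mul_div_assoc]
    exact mul_le_mul_of_nonneg_right (pow_le_pow_right₀ hρ (by omega)) (by positivity)
  rw [norm_mul, norm_pow, Complex.norm_real, Real.norm_of_nonneg hρ0] at h4
  linarith

/-- Taylor coefficients of `z ^ k * exp (u * z)`. -/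
noncomputable def tc (k : ℕ) (u : ℂ) (m : ℕ) : ℂ :=
  if k ≤ m then u ^ (m - k) / ((m - k).factorial : ℂ) else 0

theorem sum_tc {β : Type} [AddCommMonoid β] (k n : ℕ) (u : ℂ) (g : ℕ → ℂ → β)
    (hg : ∀ m, g m 0 = 0) :
    ∑ m ∈ range (k + n), g m (tc k u m)
      = ∑ t ∈ range n, g (k + t) (u ^ t / (t.factorial : ℂ)) := by
  rw [Finset.sum_range_add]
  have : ∑ m ∈ range k, g m (tc k u m) = 0 := by
    refine Finset.sum_eq_zero fun m hm => ?_
    have : ¬ k ≤ m := by
      have := Finset.mem_range.1 hm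
      omega
    simp [tc, this, hg]
  rw [this, zero_add]
  refine Finset.sum_congr rfl fun t _ => ?_
  simp [tc]

theorem row_bound (N k : ℕ) (hk : k ≤ N) (ρ : ℝ) (u z θ : ℂ) (hρ : 1 ≤ ρ) :
    ∑ m ∈ range N, ρ ^ m * ‖tc k u m * z ^ m‖
      + ρ ^ N * ‖z ^ k * Complex.exp (u * z) * θ - ∑ m ∈ range N, tc k u m * z ^ m‖
      ≤ (ρ * ‖z‖) ^ k * Real.exp (ρ * ‖u * z‖) * (1 + ρ ^ N * ‖θ - 1‖) := by
  have hρ0 : 0 ≤ ρ := by linarith
  obtain ⟨n, rfl⟩ := Nat.exists_eq_add_of_le hk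
  have e1 := sum_tc k n u (fun m a => ρ ^ m * ‖a * z ^ m‖) (by simp)
  have e2 := sum_tc k n u (fun m a => a * z ^ m) (by simp)
  beta_reduce at e1 e2
  rw [e1, e2]
  have e3 : ∑ t ∈ range n, ρ ^ (k + t) * ‖u ^ t / (t.factorial : ℂ) * z ^ (k + t)‖
      = (ρ * ‖z‖) ^ k * ∑ t ∈ range n, (ρ * ‖u * z‖) ^ t / (t.factorial : ℝ) := by
    rw [Finset.mul_sum]
    refine Finset.sum_congr rfl fun t _ => ?_
    rw [norm_mul, norm_div, norm_pow, norm_pow, Complex.norm_natCast, norm_mul]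
    ring
  have e4 : ∑ t ∈ range n, u ^ t / (t.factorial : ℂ) * z ^ (k + t)
      = z ^ k * ∑ t ∈ range n, (u * z) ^ t / (t.factorial : ℂ) := by
    rw [Finset.mul_sum]
    refine Finset.sum_congr rfl fun t _ => ?_
    ring
  rw [e3, e4]
  have h5 := exp_tail (u * z) ρ hρ n
  set S1 := ∑ t ∈ range n, (ρ * ‖u * z‖) ^ t / (t.factorial : ℝ)
  set S2 := ∑ t ∈ range n, (u * z) ^ t / (t.factorial : ℂ)
  have h6 : ‖z ^ k * Complex.exp (u * z) * θ - z ^ k * S2‖
      ≤ ‖z‖ ^ k * ‖Complex.exp (u * z) - S2‖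
        + ‖z‖ ^ k * ‖Complex.exp (u * z)‖ * ‖θ - 1‖ := by
    have : z ^ k * Complex.exp (u * z) * θ - z ^ k * S2
        = z ^ k * (Complex.exp (u * z) - S2) + z ^ k * Complex.exp (u * z) * (θ - 1) := by ring
    rw [this]
    refine (norm_add_le _ _).trans (le_of_eq ?_)
    rw [norm_mul, norm_mul, norm_mul, norm_pow]
  have h7 : ‖Complex.exp (u * z)‖ ≤ Real.exp (ρ * ‖u * z‖) := by
    refine (Complex.norm_exp_le_exp_norm _).trans (Real.exp_le_exp.2 ?_)
    have := norm_nonneg (u * z)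
    nlinarith
  have h8 : ‖z‖ ^ k ≤ (ρ * ‖z‖) ^ k := by
    apply pow_le_pow_left₀ (norm_nonneg _)
    have := norm_nonneg z
    nlinarith
  have h9 : ‖z‖ ^ k * ‖Complex.exp (u * z)‖ ≤ (ρ * ‖z‖) ^ k * Real.exp (ρ * ‖u * z‖) :=
    mul_le_mul h8 h7 (norm_nonneg _) (by positivity)
  have h10 : ρ ^ (k + n) * (‖z‖ ^ k * ‖Complex.exp (u * z)‖ * ‖θ - 1‖)
      ≤ ρ ^ (k + n) * ((ρ * ‖z‖) ^ k * Real.exp (ρ * ‖u * z‖) * ‖θ - 1‖) :=
    mul_le_mul_of_nonneg_left (mul_le_mul_of_nonneg_right h9 (norm_nonneg _)) (by positivity)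
  have h11 : (ρ * ‖z‖) ^ k * (S1 + ρ ^ n * ‖Complex.exp (u * z) - S2‖)
      ≤ (ρ * ‖z‖) ^ k * Real.exp (ρ * ‖u * z‖) := mul_le_mul_of_nonneg_left h5 (by positivity)
  have h12 := mul_le_mul_of_nonneg_left h6 (show 0 ≤ ρ ^ (k + n) by positivity)
  have e13 : ρ ^ (k + n) * (‖z‖ ^ k * ‖Complex.exp (u * z) - S2‖)
      = (ρ * ‖z‖) ^ k * (ρ ^ n * ‖Complex.exp (u * z) - S2‖) := by
    rw [mul_pow, pow_add]; ring
  nlinarith

theorem pow_near (θ : ℂ) (η : ℝ) (h : ‖θ - 1‖ ≤ η) (p : ℕ) :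
    ‖θ ^ p - 1‖ ≤ (1 + η) ^ p - 1 := by
  have hη : 0 ≤ η := (norm_nonneg _).trans h
  have hθ : ‖θ‖ ≤ 1 + η := by
    have : θ = 1 + (θ - 1) := by ring
    calc ‖θ‖ = ‖1 + (θ - 1)‖ := by rw [← this]
      _ ≤ ‖(1 : ℂ)‖ + ‖θ - 1‖ := norm_add_le _ _
      _ ≤ 1 + η := by rw [norm_one]; linarith
  induction p with
  | zero => simp
  | succ p ih =>
    have e : θ ^ (p + 1) - 1 = θ * (θ ^ p - 1) + (θ - 1) := by ring
    rw [e]
    refine (norm_add_le _ _).trans ?_
    rw [norm_mul]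
    have := mul_le_mul hθ ih (norm_nonneg _) (by linarith)
    rw [pow_succ]
    nlinarith

theorem pow_near' (θ : ℂ) (η : ℝ) (h : ‖θ - 1‖ ≤ η) (p : ℕ) (hp : p * η ≤ 1) :
    ‖θ ^ p - 1‖ ≤ 2 * (p * η) := by
  have hη : 0 ≤ η := (norm_nonneg _).trans h
  have h1 := pow_near θ η h p
  have h2 : (1 + η) ^ p ≤ Real.exp (p * η) := by
    rw [Real.exp_nat_mul]
    exact pow_le_pow_left₀ (by linarith) (by linarith [Real.add_one_le_exp η]) p
  have h0 : 0 ≤ p * η := by positivity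
  have h3 := Real.abs_exp_sub_one_le (x := p * η) (by rw [abs_of_nonneg h0]; exact hp)
  rw [abs_of_nonneg h0] at h3
  have := le_abs_self (Real.exp (p * η) - 1)
  linarith

theorem entry (α : ℂ) (N m k l r s : ℕ) (hN : 0 < N) :
    ((r * N + s * m : ℕ) : ℂ) ^ k * α ^ (l * s) =
      (N : ℂ) ^ k * (((r : ℂ) + s * m / N) ^ k *
        Complex.exp (2 * Real.pi * Complex.I * l * ((r : ℂ) + s * m / N)) *
        (α / Complex.exp (2 * Real.pi * Complex.I * m / N)) ^ (l * s)) := by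
  have hN0 : (N : ℂ) ≠ 0 := by exact_mod_cast hN.ne'
  have e1 : ((r * N + s * m : ℕ) : ℂ) = N * ((r : ℂ) + s * m / N) := by
    push_cast; field_simp
  have e2 : Complex.exp (2 * Real.pi * Complex.I * l * ((r : ℂ) + s * m / N)) =
      Complex.exp (2 * Real.pi * Complex.I * m / N) ^ (l * s) := by
    rw [← Complex.exp_nat_mul]
    have : 2 * Real.pi * Complex.I * l * ((r : ℂ) + s * m / N) =
        ((l * s : ℕ) : ℂ) * (2 * Real.pi * Complex.I * m / N) +
          ((l * r : ℕ) : ℂ) * (2 * Real.pi * Complex.I) := by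
      push_cast; ring
    rw [this, Complex.exp_add, Complex.exp_nat_mul_two_pi_mul_I, mul_one]
  have e3 : Complex.exp (2 * Real.pi * Complex.I * m / N) ^ (l * s) ≠ 0 :=
    pow_ne_zero _ (Complex.exp_ne_zero _)
  rw [e1, e2, mul_pow, div_pow]
  field_simp

theorem sup : SUp := by
  intro α N m K L R S f η hN hm hα hη
  classical
  have hη0 : 0 ≤ η := (norm_nonneg _).trans hα
  have hρ : (1 : ℝ) ≤ Real.exp 1 := Real.one_le_exp (by norm_num)
  have hρ3 : Real.exp 1 ≤ 3 := by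
    have := Real.exp_one_lt_d9
    linarith
  have hω : ‖Complex.exp (2 * Real.pi * Complex.I * m / N)‖ = 1 := by
    have : 2 * Real.pi * Complex.I * m / N = ((2 * Real.pi * m / N : ℝ) : ℂ) * Complex.I := by
      push_cast; ring
    rw [this, Complex.norm_exp_ofReal_mul_I]
  set ω := Complex.exp (2 * Real.pi * Complex.I * m / N) with hωd
  have hω0 : ω ≠ 0 := Complex.exp_ne_zero _
  have hθ : ‖α / ω - 1‖ ≤ η := by
    have : α / ω - 1 = (α - ω) / ω := by field_simp
    rw [this, norm_div, hω, div_one]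
    exact hα
  have hcard : Fintype.card (Fin K × Fin L) = K * L := by simp
  let z : Fin K × Fin L → ℂ := fun j => (((f j).1 : ℕ) : ℂ) + ((f j).2 : ℕ) * m / N
  let u : Fin K × Fin L → ℂ := fun i => 2 * Real.pi * Complex.I * ((i.2 : ℕ) : ℂ)
  let c : Fin K × Fin L → ℕ → ℂ := fun i t => (N : ℂ) ^ (i.1 : ℕ) * tc i.1 (u i) t
  set B : ℝ := 2 * (3 * N * (R + S) : ℝ) ^ K * Real.exp (20 * L * (R + S)) with hB
  have hmain := det_bound (K * L) hcard (Real.exp 1) hρ c z
    (Matrix.of fun i j => IM α N m f i j - ∑ t ∈ range (K * L), c i t * z j ^ t)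
    (IM α N m f) (fun _ _ => B) (fun i j => by simp) (fun i j => by
      have hk : (i.1 : ℕ) < K := i.1.2
      have hl : (i.2 : ℕ) < L := i.2.2
      have hr : ((f j).1 : ℕ) < R := (f j).1.2
      have hs : ((f j).2 : ℕ) < S := (f j).2.2
      have hkn : (i.1 : ℕ) ≤ K * L := by nlinarith
      have hrb := row_bound (K * L) i.1 hkn (Real.exp 1) (u i) (z j)
        ((α / ω) ^ ((i.2 : ℕ) * ((f j).2 : ℕ))) hρ
      have hN1 : (1 : ℝ) ≤ N := by exact_mod_cast hN
      have hmN : (m : ℝ) ≤ N := by exact_mod_cast hm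
      have hr' : (((f j).1 : ℕ) : ℝ) + 1 ≤ R := by exact_mod_cast hr
      have hs' : (((f j).2 : ℕ) : ℝ) + 1 ≤ S := by exact_mod_cast hs
      have hl' : ((i.2 : ℕ) : ℝ) + 1 ≤ L := by exact_mod_cast hl
      have hr0 : (0 : ℝ) ≤ ((f j).1 : ℕ) := Nat.cast_nonneg _
      have hs0 : (0 : ℝ) ≤ ((f j).2 : ℕ) := Nat.cast_nonneg _
      have hl0 : (0 : ℝ) ≤ (i.2 : ℕ) := Nat.cast_nonneg _
      have hz : ‖z j‖ ≤ R + S := by
        refine (norm_add_le _ _).trans ?_
        rw [norm_div, norm_mul, Complex.norm_natCast, Complex.norm_natCast, Complex.norm_natCast,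
          Complex.norm_natCast]
        have : (((f j).2 : ℕ) : ℝ) * m / N ≤ ((f j).2 : ℕ) := by
          rw [div_le_iff₀ (by linarith)]
          exact mul_le_mul_of_nonneg_left hmN hs0
        linarith
      have hu : ‖u i‖ ≤ 2 * Real.pi * L := by
        simp only [u, norm_mul, Complex.norm_natCast, Complex.norm_I, Complex.norm_real,
          Real.norm_of_nonneg Real.pi_pos.le, Complex.norm_ofNat, mul_one]
        exact mul_le_mul_of_nonneg_left (by linarith) (by positivity)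
      have hexp : Real.exp (Real.exp 1 * ‖u i * z j‖) ≤ Real.exp (20 * L * (R + S)) := by
        apply Real.exp_le_exp.2
        rw [norm_mul]
        have h1 : ‖u i‖ * ‖z j‖ ≤ (2 * Real.pi * L) * (R + S) :=
          mul_le_mul hu hz (norm_nonneg _) (by positivity)
        have h2 : Real.exp 1 * (‖u i‖ * ‖z j‖) ≤ 3 * ((2 * Real.pi * L) * (R + S)) :=
          mul_le_mul hρ3 h1 (by positivity) (by norm_num)
        have h3 : Real.pi ≤ 3.15 := Real.pi_lt_d2.le
        have h4 : (0 : ℝ) ≤ L * (R + S) := by positivity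
        nlinarith
      have hen : Real.exp 1 ^ (K * L) = Real.exp (K * L) := by
        rw [← Real.exp_nat_mul]; push_cast; rw [mul_one]
      have hen1 : 1 ≤ Real.exp (K * L) := Real.one_le_exp (by positivity)
      have hp : ((((i.2 : ℕ) * ((f j).2 : ℕ) : ℕ) : ℝ)) * η ≤ L * S * η := by
        push_cast
        refine mul_le_mul_of_nonneg_right ?_ hη0
        exact mul_le_mul (by linarith) (by linarith) hs0 (by linarith)
      have hLS : 0 ≤ (L : ℝ) * S * η := by positivity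
      have hp1 : 2 * L * S * η ≤ 1 := by nlinarith
      have hθ' := pow_near' (α / ω) η hθ ((i.2 : ℕ) * ((f j).2 : ℕ)) (by linarith)
      have hfac : 1 + Real.exp 1 ^ (K * L) * ‖(α / ω) ^ ((i.2 : ℕ) * ((f j).2 : ℕ)) - 1‖ ≤ 2 := by
        rw [hen]
        have : Real.exp (K * L) * ‖(α / ω) ^ ((i.2 : ℕ) * ((f j).2 : ℕ)) - 1‖
            ≤ Real.exp (K * L) * (2 * L * S * η) :=
          mul_le_mul_of_nonneg_left (by linarith) (by positivity)
        linarith
      have hpow : (N : ℝ) ^ (i.1 : ℕ) * (Real.exp 1 * ‖z j‖) ^ (i.1 : ℕ)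
          ≤ (3 * N * (R + S) : ℝ) ^ K := by
        rw [← mul_pow]
        have h1 : Real.exp 1 * ‖z j‖ ≤ 3 * (R + S) :=
          mul_le_mul hρ3 hz (norm_nonneg _) (by norm_num)
        have h2 : (N : ℝ) * (Real.exp 1 * ‖z j‖) ≤ 3 * N * (R + S) := by
          have := mul_le_mul_of_nonneg_left h1 (show (0 : ℝ) ≤ N by linarith)
          linarith
        have h3 : (1 : ℝ) ≤ 3 * N * (R + S) := by nlinarith
        exact (pow_le_pow_left₀ (by positivity) h2 _).trans (pow_le_pow_right₀ h3 hk.le)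
      have e1 : ∑ t ∈ range (K * L), Real.exp 1 ^ t * ‖c i t * z j ^ t‖
          = (N : ℝ) ^ (i.1 : ℕ) *
            ∑ t ∈ range (K * L), Real.exp 1 ^ t * ‖tc i.1 (u i) t * z j ^ t‖ := by
        rw [Finset.mul_sum]
        refine Finset.sum_congr rfl fun t _ => ?_
        simp only [c, norm_mul, norm_pow, Complex.norm_natCast]
        ring
      have e2 : ‖IM α N m f i j - ∑ t ∈ range (K * L), c i t * z j ^ t‖
          = (N : ℝ) ^ (i.1 : ℕ) * ‖z j ^ (i.1 : ℕ) * Complex.exp (u i * z j) *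
              (α / ω) ^ ((i.2 : ℕ) * ((f j).2 : ℕ))
              - ∑ t ∈ range (K * L), tc i.1 (u i) t * z j ^ t‖ := by
        rw [← Complex.norm_natCast, ← norm_pow, ← norm_mul]
        congr 1
        rw [mul_sub, Finset.mul_sum]
        congr 1
        · exact entry α N m i.1 i.2 (f j).1 (f j).2 hN
        · refine Finset.sum_congr rfl fun t _ => ?_
          simp only [c]
          ring
      rw [Matrix.of_apply, e1, e2]
      have hNk : (0 : ℝ) ≤ (N : ℝ) ^ (i.1 : ℕ) := by positivity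
      have h20 := mul_le_mul_of_nonneg_left hrb hNk
      have h21 : (N : ℝ) ^ (i.1 : ℕ) * ((Real.exp 1 * ‖z j‖) ^ (i.1 : ℕ) *
          Real.exp (Real.exp 1 * ‖u i * z j‖) *
          (1 + Real.exp 1 ^ (K * L) * ‖(α / ω) ^ ((i.2 : ℕ) * ((f j).2 : ℕ)) - 1‖)) ≤ B := by
        have h22 := mul_le_mul (mul_le_mul hpow hexp (Real.exp_pos _).le (by positivity)) hfac
          (by positivity) (by positivity)
        rw [hB]
        linarith
      linarith)
  have e3 : Real.exp 1 ^ (K * L * (K * L - 1) / 2)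
      = Real.exp ((K * L : ℝ) * (K * L - 1) / 2) := by
    rw [← Real.exp_nat_mul, mul_one, ← Nat.choose_two_right, Nat.cast_choose_two]
    push_cast
    rfl
  rw [e3] at hmain
  refine hmain.trans (le_of_eq ?_)
  simp [Fintype.card_perm]

end Pool.Agent.MP_c1891a_nt.H41ZU
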