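import Pool.Agent.MP_c1891a_nt.H91.Spec

/-
Few conjugates have a very small value: reduction to the determinant method.
-/

namespace Pool.Agent.MP_c1891a_nt.H91

open Finset Filter Topology

/-! ### Transcendence of the chart -/

lemma bpb_lim {ψ : ℝ → ℝ} (h0 : ∀ s, ψ s ≠ 0) (h1 : Tendsto ψ atTop (𝓝 0))
    (h2 : Tendsto (fun s => ψ s * s ^ 2) atTop (𝓝 0)) (n : ℕ) :
    ∀ α β : ℕ → ℝ, (∀ s, 0 < s → ∑ i ∈ range n, ψ s ^ i * (α i + β i * s ^ 2) = 0) →
      ∀ i < n, α i = 0 ∧ β i = 0 := by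
  induction n with
  | zero => intro _ _ _ i hi; omega
  | succ n ih =>
    intro α β h
    have t1 : Tendsto (fun s => ∑ i ∈ range n, ψ s ^ (i + 1) * (α (i + 1) + β (i + 1) * s ^ 2))
        atTop (𝓝 0) := by
      have : ∀ i ∈ range n, Tendsto (fun s => ψ s ^ (i + 1) * (α (i + 1) + β (i + 1) * s ^ 2))
          atTop (𝓝 0) := fun i _ => by
        have := (h1.pow i).mul ((h1.const_mul (α (i + 1))).add (h2.const_mul (β (i + 1))))
        simp only [mul_zero, add_zero] at this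
        exact this.congr fun s => by ring
      simpa using tendsto_finsetSum _ this
    have t2 : Tendsto (fun s : ℝ => α 0 + β 0 * s ^ 2) atTop (𝓝 0) := by
      have := t1.neg
      rw [neg_zero] at this
      refine this.congr' ((eventually_gt_atTop 0).mono fun s hs => ?_)
      have := h s hs
      rw [sum_range_succ', pow_zero, one_mul] at this
      linarith
    have t3 : Tendsto (fun s : ℝ => (s ^ 2)⁻¹) atTop (𝓝 0) :=
      (tendsto_pow_atTop two_ne_zero).inv_tendsto_atTop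
    have hb : β 0 = 0 := by
      have a1 := (t2.mul t3).sub (t3.const_mul (α 0))
      simp only [mul_zero, sub_zero] at a1
      refine tendsto_nhds_unique tendsto_const_nhds (a1.congr' ?_)
      refine (eventually_gt_atTop 0).mono fun s hs => ?_
      have : s ≠ 0 := hs.ne'
      field_simp
      ring
    have ha : α 0 = 0 := by
      simp only [hb, zero_mul, add_zero] at t2
      exact tendsto_nhds_unique tendsto_const_nhds t2
    have := ih (fun i => α (i + 1)) (fun i => β (i + 1)) fun s hs => by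
      have := h s hs
      rw [sum_range_succ', ha, hb, zero_mul, add_zero, mul_zero, add_zero] at this
      refine mul_left_cancel₀ (h0 s) ?_
      rw [mul_zero, mul_sum, ← this]
      exact sum_congr rfl fun i _ => by ring
    intro i hi
    cases i with
    | zero => exact ⟨ha, hb⟩
    | succ i => exact this i (by omega)

lemma bpb_arcsin {x : ℝ} (h : |x| < 1) : AnalyticAt ℝ Real.arcsin x :=
  (Real.contDiffAt_arcsin (n := ⊤) (abs_lt.1 h).1.ne' (abs_lt.1 h).2.ne).analyticAt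

lemma bpb_ext {w : ℝ} (h : |w| < 1) : ∃ g : ℂ → ℂ, AnalyticAt ℂ g w ∧
    ∀ᶠ x in 𝓝 w, g (x : ℝ) = (Real.arcsin x : ℝ) := by
  obtain ⟨h1, h2⟩ := abs_lt.1 h
  have hd : deriv Complex.sin (Real.arcsin w : ℝ) ≠ 0 := by
    rw [Complex.deriv_sin, ← Complex.ofReal_cos, Complex.ofReal_ne_zero]
    exact (Real.cos_pos_of_mem_Ioo
      ⟨Real.neg_pi_div_two_lt_arcsin.2 h1, Real.arcsin_lt_pi_div_two.2 h2⟩).ne'
  have a1 := Complex.analyticAt_sin.analyticAt_localInverse hd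
  have a2 := (Complex.analyticAt_sin.hasStrictDerivAt).eventually_left_inverse hd
  rw [← Complex.ofReal_sin, Real.sin_arcsin h1.le h2.le] at a1
  refine ⟨_, a1, ?_⟩
  have t : Tendsto (fun x : ℝ => ((Real.arcsin x : ℝ) : ℂ)) (𝓝 w) (𝓝 (Real.arcsin w : ℝ)) :=
    (Complex.continuous_ofReal.comp Real.continuous_arcsin).tendsto w
  filter_upwards [t.eventually a2, Ioo_mem_nhds h1 h2] with x hx hx'
  rwa [← Complex.ofReal_sin, Real.sin_arcsin hx'.1.le hx'.2.le] at hx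

lemma bpb_psi {w : ℝ} (h0 : w ≠ 0) (h : |w| < 1) :
    (∀ s, Real.arcsin (w / Real.cosh s) ≠ 0) ∧
    (∀ s, AnalyticAt ℝ (fun s => Real.arcsin (w / Real.cosh s)) s) ∧
    ∀ n : ℕ, Tendsto (fun s => Real.arcsin (w / Real.cosh s) * s ^ n) atTop (𝓝 0) := by
  have hb : ∀ s, |w / Real.cosh s| < 1 := fun s => by
    rw [abs_div, abs_of_pos (Real.cosh_pos s), div_lt_one (Real.cosh_pos s)]
    exact h.trans_le (Real.one_le_cosh s)
  refine ⟨fun s => ?_, fun s => ?_, fun n => ?_⟩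
  · rw [Ne, Real.arcsin_eq_zero_iff]
    exact div_ne_zero h0 (Real.cosh_pos s).ne'
  · exact (bpb_arcsin (hb s)).comp (f := fun s => w / Real.cosh s)
      (analyticAt_const.div Real.analyticAt_cosh (Real.cosh_pos s).ne')
  · have t := (Real.tendsto_pow_mul_exp_neg_atTop_nhds_zero n).const_mul Real.pi
    rw [mul_zero] at t
    refine squeeze_zero_norm' ((eventually_gt_atTop 0).mono fun s hs => ?_) t
    have a1 := Real.mul_abs_le_abs_sin (x := Real.arcsin (w / Real.cosh s))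
      (abs_le.2 ⟨Real.neg_pi_div_two_le_arcsin _, Real.arcsin_le_pi_div_two _⟩)
    rw [Real.sin_arcsin (abs_lt.1 (hb s)).1.le (abs_lt.1 (hb s)).2.le, abs_div,
      abs_of_pos (Real.cosh_pos s), div_mul_eq_mul_div, div_le_iff₀ Real.pi_pos] at a1
    have a2 : |w| / Real.cosh s ≤ 2 * Real.exp (-s) := by
      rw [div_le_iff₀ (Real.cosh_pos s), Real.cosh_eq]
      have e : Real.exp (-s) * Real.exp s = 1 := by rw [← Real.exp_add]; simp
      nlinarith [Real.exp_pos (-s), mul_pos (Real.exp_pos (-s)) (Real.exp_pos (-s))]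
    have a3 : |Real.arcsin (w / Real.cosh s)| ≤ Real.pi * Real.exp (-s) := by
      nlinarith [Real.pi_pos]
    rw [Real.norm_eq_abs, abs_mul, abs_of_pos (pow_pos hs n), mul_comm (s ^ n), ← mul_assoc]
    gcongr

lemma bpb_trans {w : ℝ} (h0 : w ≠ 0) (h : |w| < 1) (c : ℕ → ℕ → ℝ)
    (hc : ∀ᶠ v in 𝓝 (0 : ℝ),
      ∑ i ∈ range 4, ∑ j ∈ range 4, c i j * Real.arcsin (w / Real.cos v) ^ i * v ^ j = 0) :
    ∀ i < 4, ∀ j < 4, c i j = 0 := by
  obtain ⟨g, g1, g2⟩ := bpb_ext h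
  obtain ⟨p1, p2, p3⟩ := bpb_psi h0 h
  have a1 : AnalyticAt ℂ (fun z : ℂ => g (w / Complex.cos z)) 0 :=
    AnalyticAt.comp_of_eq (f := fun z : ℂ => (w : ℂ) / Complex.cos z) g1
      (analyticAt_const.div Complex.analyticAt_cos (by simp)) (by simp)
  have a2 : AnalyticAt ℂ (fun z : ℂ => ∑ i ∈ range 4, ∑ j ∈ range 4,
      (c i j : ℂ) * g (w / Complex.cos z) ^ i * z ^ j) 0 :=
    analyticAt_fun_sum _ fun i _ => analyticAt_fun_sum _ fun j _ =>
      (analyticAt_const.mul (a1.pow i)).mul (analyticAt_id.pow j)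
  have t1 : Tendsto (fun v : ℝ => w / Real.cos v) (𝓝 0) (𝓝 w) := by
    have := (tendsto_const_nhds (x := w)).div (Real.continuous_cos.tendsto 0) (by simp)
    rwa [Real.cos_zero, div_one] at this
  have t2 : Tendsto (fun v : ℝ => w / Real.cosh v) (𝓝 0) (𝓝 w) := by
    have := (tendsto_const_nhds (x := w)).div (Real.continuous_cosh.tendsto 0) (by simp)
    rwa [Real.cosh_zero, div_one] at this
  have t3 : Tendsto (fun v : ℝ => (v : ℂ)) (𝓝[≠] 0) (𝓝[≠] 0) :=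
    tendsto_nhdsWithin_iff.2 ⟨by
      simpa using (Complex.continuous_ofReal.tendsto 0).mono_left nhdsWithin_le_nhds,
      eventually_mem_nhdsWithin.mono fun v hv => by simpa using hv⟩
  have a3 := a2.frequently_zero_iff_eventually_zero.1 (t3.frequently (by
    refine Eventually.frequently (Eventually.filter_mono nhdsWithin_le_nhds ?_)
    filter_upwards [hc, t1.eventually g2] with v e1 e2
    rw [← Complex.ofReal_cos, ← Complex.ofReal_div, e2]
    exact_mod_cast e1))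
  have t4 : Tendsto (fun s : ℝ => (s : ℂ) * Complex.I) (𝓝 0) (𝓝 0) := by
    simpa using (Complex.continuous_ofReal.tendsto 0).mul_const Complex.I
  have a4 : ∀ᶠ s in 𝓝 (0 : ℝ),
      ∑ i ∈ range 4, Real.arcsin (w / Real.cosh s) ^ i * (c i 0 + -c i 2 * s ^ 2) = 0 ∧
      s * ∑ i ∈ range 4, Real.arcsin (w / Real.cosh s) ^ i * (c i 1 + -c i 3 * s ^ 2) = 0 := by
    filter_upwards [t4.eventually a3, t2.eventually g2] with s e1 e2
    rw [Complex.cos_mul_I, ← Complex.ofReal_cosh, ← Complex.ofReal_div, e2] at e1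
    generalize Real.arcsin (w / Real.cosh s) = ψ at e1
    have e : ∑ i ∈ range 4, ∑ j ∈ range 4, (c i j : ℂ) * (ψ : ℂ) ^ i * ((s : ℂ) * Complex.I) ^ j =
        ((∑ i ∈ range 4, ψ ^ i * (c i 0 + -c i 2 * s ^ 2) : ℝ) : ℂ) +
        ((s * ∑ i ∈ range 4, ψ ^ i * (c i 1 + -c i 3 * s ^ 2) : ℝ) : ℂ) * Complex.I := by
      push_cast
      rw [mul_sum, sum_mul, ← sum_add_distrib]
      refine sum_congr rfl fun i _ => ?_
      simp only [sum_range_succ, sum_range_zero]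
      linear_combination (ψ : ℂ) ^ i * (c i 2 * s ^ 2 + c i 3 * s ^ 3 * Complex.I) * Complex.I_sq
    rw [e] at e1
    constructor
    · simpa only [Complex.add_re, Complex.mul_re, Complex.ofReal_re, Complex.ofReal_im,
        Complex.I_re, Complex.I_im, Complex.zero_re, mul_zero, zero_mul, sub_zero, add_zero]
        using congrArg Complex.re e1
    · simpa only [Complex.add_im, Complex.mul_im, Complex.ofReal_re, Complex.ofReal_im,
        Complex.I_re, Complex.I_im, Complex.zero_im, mul_zero, zero_mul, mul_one, zero_add,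
        add_zero] using congrArg Complex.im e1
  have an : ∀ α β : ℕ → ℝ, AnalyticOnNhd ℝ (fun s => ∑ i ∈ range 4,
      Real.arcsin (w / Real.cosh s) ^ i * (α i + β i * s ^ 2)) Set.univ := fun α β s _ =>
    analyticAt_fun_sum _ fun i _ => ((p2 s).pow i).mul
      (analyticAt_const.add (analyticAt_const.mul (analyticAt_id.pow 2)))
  have b1 := (an (c · 0) (-c · 2)).eqOn_zero_of_preconnected_of_eventuallyEq_zero
    isPreconnected_univ (Set.mem_univ 0) (a4.mono fun s hs => hs.1)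
  have b2 := AnalyticOnNhd.eqOn_zero_of_preconnected_of_eventuallyEq_zero
    (analyticOnNhd_id.mul (an (c · 1) (-c · 3)))
    isPreconnected_univ (Set.mem_univ 0) (a4.mono fun s hs => hs.2)
  have q0 : Tendsto (fun s => Real.arcsin (w / Real.cosh s)) atTop (𝓝 0) := by simpa using p3 0
  have c1 := bpb_lim p1 q0 (p3 2) 4 (c · 0) (-c · 2) fun s _ => b1 (Set.mem_univ s)
  have c2 := bpb_lim p1 q0 (p3 2) 4 (c · 1) (-c · 3) fun s hs =>
    (mul_eq_zero.1 (b2 (Set.mem_univ s))).resolve_left hs.ne'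
  intro i hi j hj
  interval_cases j
  exacts [(c1 i hi).1, (c2 i hi).1, neg_eq_zero.1 (c1 i hi).2, neg_eq_zero.1 (c2 i hi).2]

/-! ### Two short forms -/

lemma bpb_lat {p : ℕ} (hp : p.Prime) {a b : ℤ} (h : ¬ ((p : ℤ) ∣ a ∧ (p : ℤ) ∣ b)) :
    ∃ l₁ l₂ n₁ n₂ : ℤ, (p : ℤ) ∣ l₁ * a + l₂ * b ∧ (p : ℤ) ∣ n₁ * a + n₂ * b ∧
      l₁ * n₂ - l₂ * n₁ = p ∧ (l₁ ^ 2 + l₂ ^ 2) * (n₁ ^ 2 + n₂ ^ 2) ≤ (2 * p) ^ 2 := by
  have hp' := Nat.prime_iff_prime_int.1 hp
  obtain ⟨N, ⟨l₁, l₂, n₁, n₂, h1, h2, h3, rfl⟩, hN⟩ := Int.exists_least_of_bdd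
    (P := fun N => ∃ l₁ l₂ n₁ n₂ : ℤ, (p : ℤ) ∣ l₁ * a + l₂ * b ∧ (p : ℤ) ∣ n₁ * a + n₂ * b ∧
      l₁ * n₂ - l₂ * n₁ = p ∧ N = l₁ ^ 2 + l₂ ^ 2 + n₁ ^ 2 + n₂ ^ 2)
    ⟨0, by rintro _ ⟨l₁, l₂, n₁, n₂, -, -, -, rfl⟩; positivity⟩ (by
      rcases not_and_or.1 h with h | h
      · obtain ⟨u, v, e⟩ := (hp'.coprime_iff_not_dvd.2 h)
        exact ⟨_, -(v * b), 1, -p, 0, ⟨u * b, by linear_combination -b * e⟩, ⟨-a, by ring⟩,
          by ring, rfl⟩
      · obtain ⟨u, v, e⟩ := (hp'.coprime_iff_not_dvd.2 h)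
        exact ⟨_, 1, -(v * a), 0, p, ⟨u * a, by linear_combination -a * e⟩, ⟨b, by ring⟩,
          by ring, rfl⟩)
  have k1 := hN _ ⟨l₁, l₂, n₁ + l₁, n₂ + l₂, h1, (h2.add h1).trans (Eq.dvd (by ring)),
    by linear_combination h3, rfl⟩
  have k2 := hN _ ⟨l₁, l₂, n₁ - l₁, n₂ - l₂, h1, (h2.sub h1).trans (Eq.dvd (by ring)),
    by linear_combination h3, rfl⟩
  have k3 := hN _ ⟨l₁ + n₁, l₂ + n₂, n₁, n₂, (h1.add h2).trans (Eq.dvd (by ring)), h2,
    by linear_combination h3, rfl⟩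
  have k4 := hN _ ⟨l₁ - n₁, l₂ - n₂, n₁, n₂, (h1.sub h2).trans (Eq.dvd (by ring)), h2,
    by linear_combination h3, rfl⟩
  refine ⟨l₁, l₂, n₁, n₂, h1, h2, h3, ?_⟩
  have m1 : |2 * (l₁ * n₁ + l₂ * n₂)| ≤ l₁ ^ 2 + l₂ ^ 2 := abs_le.2 ⟨by linarith, by linarith⟩
  have m2 : |2 * (l₁ * n₁ + l₂ * n₂)| ≤ n₁ ^ 2 + n₂ ^ 2 := abs_le.2 ⟨by linarith, by linarith⟩
  have m3 := mul_le_mul m1 m2 (abs_nonneg _) (by positivity)
  rw [abs_mul_abs_self] at m3
  rw [← h3]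
  nlinarith [sq_nonneg (l₁ * n₂ - l₂ * n₁)]

/-! ### The chart -/

/-- The first coordinate of the chart. -/
noncomputable def bpbU (p : ℕ) (m : ℤ) : ℝ := Real.pi * (m / p - 1 / 2)

/-- The second coordinate of the chart. -/
noncomputable def bpbV (p : ℕ) (n : ℤ) : ℝ := Real.pi * (n / p)

/-- The index `j` belongs to the chart. -/
def bpbQ (w : ℝ) (p A : ℕ) (α β : ℤ) (j : ℕ) : Prop :=
  ∃ m n : ℤ, (p : ℤ) ∣ m - α * j ∧ (p : ℤ) ∣ n - β * j ∧ |bpbU p m| ≤ Real.pi / 2 ∧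
    |bpbV p n| ≤ Real.pi / 2 ∧ |Real.sin (bpbU p m)| ≤ Real.cos (bpbV p n) ∧
    |Real.sin (bpbU p m) * Real.cos (bpbV p n) - w| ≤ ((p : ℝ) ^ A)⁻¹

lemma bpb_sep {p : ℕ} (hp : 0 < p) {m m' : ℤ} (h : m ≠ m') :
    Real.pi / p ≤ |bpbV p m - bpbV p m'| := by
  have hp' : (0 : ℝ) < p := by exact_mod_cast hp
  have h1 : (1 : ℝ) ≤ |(m : ℝ) - m'| := by exact_mod_cast Int.one_le_abs (sub_ne_zero.2 h)
  rw [bpbV, bpbV, show Real.pi * ((m : ℝ) / p) - Real.pi * (m' / p) = Real.pi / p * (m - m') by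
    ring, abs_mul, abs_of_pos (div_pos Real.pi_pos hp')]
  exact le_mul_of_one_le_right (div_pos Real.pi_pos hp').le h1

lemma bpb_form {l₁ l₂ : ℤ} :
    |2 / Real.pi * (l₁ : ℝ)| ≤ √((l₁ : ℝ) ^ 2 + l₂ ^ 2) ∧
      |2 / Real.pi * (l₂ : ℝ)| ≤ √((l₁ : ℝ) ^ 2 + l₂ ^ 2) := by
  have h1 : |2 / Real.pi| ≤ 1 := by
    rw [abs_of_pos (by positivity), div_le_one Real.pi_pos]
    exact Real.two_le_pi
  refine ⟨?_, ?_⟩ <;> rw [abs_mul] <;>
    refine (mul_le_of_le_one_left (abs_nonneg _) h1).trans (Real.abs_le_sqrt ?_) <;>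
    nlinarith [sq_nonneg (l₁ : ℝ), sq_nonneg (l₂ : ℝ)]

lemma bpb_int {p : ℕ} (hp : 0 < p) {α β l₁ l₂ m n j : ℤ} (h : (p : ℤ) ∣ l₁ * α + l₂ * β)
    (h1 : (p : ℤ) ∣ m - α * j) (h2 : (p : ℤ) ∣ n - β * j) :
    ∃ z : ℤ, 2 / Real.pi * l₁ * bpbU p m + 2 / Real.pi * l₂ * bpbV p n = z := by
  obtain ⟨z, hz⟩ : (p : ℤ) ∣ l₁ * m + l₂ * n :=
    (((h.mul_right j).add (h1.mul_left l₁)).add (h2.mul_left l₂)).trans (Eq.dvd (by ring))
  have hp' : (p : ℝ) ≠ 0 := by exact_mod_cast hp.ne'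
  have hz' : (l₁ : ℝ) * m + l₂ * n = p * z := by exact_mod_cast hz
  refine ⟨2 * z - l₁, ?_⟩
  rw [bpbU, bpbV]
  push_cast
  field_simp
  linear_combination 2 * hz'

lemma bpb_core (h : SBPa) {w : ℝ} (h0 : w ≠ 0) (h1 : |w| < 1) :
    ∃ (C : ℝ) (A p₀ : ℕ), ∀ p : ℕ, p.Prime → p₀ ≤ p → ∀ α β : ℤ,
      ¬ ((p : ℤ) ∣ α ∧ (p : ℤ) ∣ β) → ∀ S : Finset ℕ, S ⊆ range p →
      (∀ j ∈ S, bpbQ w p A α β j) → (S.card : ℝ) ≤ C * (p : ℝ) ^ (2 / 9 : ℝ) := by
  have w0 : 0 < |w| := abs_pos.2 h0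
  obtain ⟨κ, k0, k1⟩ : ∃ κ : ℝ, 0 < κ ∧ κ ^ 2 = (|w| + |w| ^ 2) / 2 :=
    ⟨√((|w| + |w| ^ 2) / 2), Real.sqrt_pos.2 (by positivity), Real.sq_sqrt (by positivity)⟩
  have k2 : |w| < κ := lt_of_pow_lt_pow_left₀ 2 k0.le (by nlinarith)
  have k3 : κ < 1 := lt_of_pow_lt_pow_left₀ 2 zero_le_one (by nlinarith)
  have v0 : 0 < Real.arccos κ := Real.arccos_pos.2 k3
  have k4 : ∀ v ∈ Set.Icc (-Real.arccos κ) (Real.arccos κ), κ ≤ Real.cos v := fun v hv => by
    rw [← Real.cos_abs, ← Real.cos_arccos (by linarith) k3.le]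
    exact Real.cos_le_cos_of_nonneg_of_le_pi (abs_nonneg _) (Real.arccos_le_pi _) (abs_le.2 hv)
  have k5 : ∀ x, κ ≤ x → |w / x| ≤ |w| / κ := fun x hx => by
    rw [abs_div, abs_of_pos (k0.trans_le hx)]
    gcongr
  have k6 : |w| / κ < 1 := (div_lt_one k0).2 k2
  have an : AnalyticOnNhd ℝ (fun v => Real.arcsin (w / Real.cos v))
      (Set.Icc (-Real.arccos κ) (Real.arccos κ)) := fun v hv =>
    (bpb_arcsin ((k5 _ (k4 v hv)).trans_lt k6)).comp (f := fun v => w / Real.cos v)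
      (analyticAt_const.div Real.analyticAt_cos (k0.trans_le (k4 v hv)).ne')
  obtain ⟨C, A, p₀, hC⟩ := h _ _ an (fun v₁ hv c hc => bpb_trans h0 h1 c (by
    have a : AnalyticOnNhd ℝ (fun v => ∑ i ∈ range 4, ∑ j ∈ range 4,
        c i j * Real.arcsin (w / Real.cos v) ^ i * v ^ j)
        (Set.Icc (-Real.arccos κ) (Real.arccos κ)) := fun v hv =>
      analyticAt_fun_sum _ fun i _ => analyticAt_fun_sum _ fun j _ =>
        (analyticAt_const.mul ((an v hv).pow i)).mul (analyticAt_id.pow j)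
    filter_upwards [Icc_mem_nhds (neg_lt_zero.2 v0) v0] with v hv'
    exact a.eqOn_zero_of_preconnected_of_eventuallyEq_zero isPreconnected_Icc hv hc hv')) 2 two_pos
  obtain ⟨ρ, hρ⟩ : ∃ ρ : ℝ, ρ = (|w| / κ + 1) / 2 := ⟨_, rfl⟩
  have r1 : ρ < 1 := by linarith
  obtain ⟨K, hK⟩ : ∃ K, LipschitzOnWith K Real.arcsin (Set.Icc (-ρ) ρ) :=
    ContDiffOn.exists_lipschitzOnWith (n := 1) (fun x hx => (Real.contDiffAt_arcsin
      (by linarith [hx.1] : -1 < x).ne' (by linarith [hx.2] : x < 1).ne).contDiffWithinAt)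
      one_ne_zero (convex_Icc _ _) isCompact_Icc
  obtain ⟨δ, d0, d1, d2⟩ : ∃ δ : ℝ, 0 < δ ∧ δ ≤ (|w| - |w| ^ 2) / 2 ∧ δ ≤ (κ - |w|) / 2 :=
    ⟨min _ _, lt_min (by nlinarith) (by linarith), min_le_left _ _, min_le_right _ _⟩
  refine ⟨C, A + 2, ⌈p₀⌉₊ + ⌈K / κ⌉₊ + ⌈δ⁻¹⌉₊, fun p hp hp0 α β hαβ S hS hQ => ?_⟩
  have q0 : (0 : ℝ) < p := by exact_mod_cast hp.pos
  have q1 : (1 : ℝ) ≤ p := by exact_mod_cast hp.pos
  have q2 : p₀ ≤ p := Nat.ceil_le.1 (by omega)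
  have q3 : K / κ ≤ p := Nat.ceil_le.1 (by omega)
  have q4 : δ⁻¹ ≤ p := Nat.ceil_le.1 (by omega)
  have q5 : ((p : ℝ) ^ (A + 2))⁻¹ ≤ δ :=
    inv_le_of_inv_le₀ d0 (q4.trans (le_self_pow₀ q1 (by omega)))
  obtain ⟨l₁, l₂, n₁, n₂, e1, e2, e3, e4⟩ := bpb_lat hp hαβ
  choose! m n m1 m2 m3 m4 m5 m6 using hQ
  have key : ∀ j ∈ S, |bpbV p (n j)| ≤ Real.arccos κ ∧
      |bpbU p (m j) - Real.arcsin (w / Real.cos (bpbV p (n j)))| ≤ ((p : ℝ) ^ (A + 1))⁻¹ := by
    intro j hj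
    have b3 := m3 j hj
    have b4 := m4 j hj
    have b5 := m5 j hj
    have b6 := m6 j hj
    generalize bpbU p (m j) = u at *
    generalize bpbV p (n j) = v at *
    have c0 : 0 ≤ Real.cos v := (abs_nonneg _).trans b5
    have c1 : κ ≤ Real.cos v := by
      have a1 := abs_sub_abs_le_abs_sub w (Real.sin u * Real.cos v)
      rw [abs_sub_comm, abs_mul, abs_of_nonneg c0] at a1
      have a2 : |Real.sin u| * Real.cos v ≤ Real.cos v ^ 2 := by
        rw [sq]; exact mul_le_mul_of_nonneg_right b5 c0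
      exact le_of_pow_le_pow_left₀ two_ne_zero c0 (by linarith)
    have c2 : 0 < Real.cos v := k0.trans_le c1
    have c3 : |Real.sin u - w / Real.cos v| ≤ ((p : ℝ) ^ (A + 2))⁻¹ / κ := by
      rw [show Real.sin u - w / Real.cos v = (Real.sin u * Real.cos v - w) / Real.cos v by
        field_simp, abs_div, abs_of_pos c2]
      gcongr
    have c4 := k5 _ c1
    have c5 : |Real.sin u| ≤ ρ := by
      have a1 := abs_sub_abs_le_abs_sub (Real.sin u) (w / Real.cos v)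
      have a2 : ((p : ℝ) ^ (A + 2))⁻¹ / κ ≤ (1 - |w| / κ) / 2 := by
        rw [div_le_iff₀ k0, show (1 - |w| / κ) / 2 * κ = (κ - |w|) / 2 by field_simp]
        linarith
      linarith
    constructor
    · rw [← Real.arccos_cos (abs_nonneg v) (by linarith [Real.pi_pos]), Real.cos_abs]
      exact Real.arccos_le_arccos c1
    · have a1 := hK.dist_le_mul _ (abs_le.1 c5) _ (abs_le.1 (c4.trans (by linarith : _ ≤ ρ)))
      rw [Real.dist_eq, Real.dist_eq, Real.arcsin_sin (abs_le.1 b3).1 (abs_le.1 b3).2] at a1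
      calc _ ≤ K * (((p : ℝ) ^ (A + 2))⁻¹ / κ) := a1.trans (by gcongr)
        _ = K / κ * ((p : ℝ) ^ (A + 2))⁻¹ := by ring
        _ ≤ p * ((p : ℝ) ^ (A + 2))⁻¹ := by gcongr
        _ = _ := by field_simp; ring
  have inj : Set.InjOn (fun j => (bpbU p (m j), bpbV p (n j))) S := by
    intro j hj j' hj' e
    have pi0 := div_pos Real.pi_pos q0
    have f1 : m j = m j' := by
      by_contra hne
      have := bpb_sep hp.pos hne
      have e' : bpbV p (m j) - bpbV p (m j') = 0 := by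
        have := congrArg Prod.fst e
        simp only [bpbU] at this
        rw [bpbV, bpbV]; linarith
      rw [e', abs_zero] at this
      linarith
    have f2 : n j = n j' := by
      by_contra hne
      have := bpb_sep hp.pos hne
      rw [show bpbV p (n j) = bpbV p (n j') from congrArg Prod.snd e, sub_self, abs_zero] at this
      linarith
    have g1 : (p : ℤ) ∣ α * (j - j') :=
      ((m1 j' hj').sub (m1 j hj)).trans (Eq.dvd (by rw [f1]; ring))
    have g2 : (p : ℤ) ∣ β * (j - j') :=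
      ((m2 j' hj').sub (m2 j hj)).trans (Eq.dvd (by rw [f2]; ring))
    have hp' := Nat.prime_iff_prime_int.1 hp
    have g3 : (p : ℤ) ∣ (j : ℤ) - j' := by
      by_contra hn
      exact hαβ ⟨(hp'.dvd_or_dvd g1).resolve_right hn, (hp'.dvd_or_dvd g2).resolve_right hn⟩
    have g4 := mem_range.1 (hS hj)
    have g5 := mem_range.1 (hS hj')
    have := Int.eq_zero_of_abs_lt_dvd g3 (abs_lt.2 ⟨by omega, by omega⟩)
    omega
  rw [← card_image_of_injOn inj]
  refine hC p q2 (2 / Real.pi * l₁) (2 / Real.pi * l₂) (2 / Real.pi * n₁) (2 / Real.pi * n₂)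
    _ _ ?_ bpb_form.1 bpb_form.2 bpb_form.1 bpb_form.2 ?_ _ ?_ ?_
  · have e3' : (l₁ : ℝ) * n₂ - l₂ * n₁ = p := by exact_mod_cast e3
    intro hh
    have : (2 / Real.pi) ^ 2 * (p : ℝ) = 0 := by rw [← e3']; linear_combination hh
    exact absurd this (by positivity)
  · rw [← Real.sqrt_mul (by positivity)]
    exact Real.sqrt_le_iff.2 ⟨by positivity, by exact_mod_cast e4⟩
  · intro q hq
    obtain ⟨j, hj, rfl⟩ := mem_image.1 hq
    refine ⟨(key j hj).1, (key j hj).2.trans ?_, bpb_int hp.pos e1 (m1 j hj) (m2 j hj),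
      bpb_int hp.pos e2 (m1 j hj) (m2 j hj)⟩
    exact inv_anti₀ (by positivity) (pow_le_pow_right₀ q1 (by omega))
  · intro q hq q' hq' hne
    obtain ⟨j, hj, rfl⟩ := mem_image.1 hq
    obtain ⟨j', hj', rfl⟩ := mem_image.1 hq'
    have s1 : (p : ℝ)⁻¹ * 3 < Real.pi / p := by
      rw [div_eq_mul_inv, mul_comm]
      exact mul_lt_mul_of_pos_right Real.pi_gt_three (inv_pos.2 q0)
    have s0 := inv_pos.2 q0
    by_cases f2 : n j = n j'
    · refine absurd ?_ hne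
      have f1 : m j = m j' := by
        by_contra hne'
        have a1 := bpb_sep hp.pos hne'
        have a2 := (key j hj).2
        have a3 := (key j' hj').2
        have a4 : ((p : ℝ) ^ (A + 1))⁻¹ ≤ (p : ℝ)⁻¹ := inv_anti₀ q0 (le_self_pow₀ q1 (by omega))
        rw [f2] at a2
        rw [show bpbV p (m j) - bpbV p (m j') = bpbU p (m j) - bpbU p (m j') by
          rw [bpbU, bpbU, bpbV, bpbV]; ring] at a1
        have a5 := abs_sub_le (bpbU p (m j)) (Real.arcsin (w / Real.cos (bpbV p (n j'))))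
          (bpbU p (m j'))
        rw [abs_sub_comm (Real.arcsin _) (bpbU p (m j'))] at a5
        linarith
      rw [f1, f2]
    · have := bpb_sep hp.pos f2
      exact le_trans (by linarith) this

lemma bpb_shift {p : ℕ} (hp : 0 < p) (t z : ℤ) :
    |Real.cos (bpbV p (t - p * z))| = |Real.cos (bpbV p t)| := by
  have hp' : (p : ℝ) ≠ 0 := by exact_mod_cast hp.ne'
  rw [show bpbV p (t - p * z) = bpbV p t - z * Real.pi by
    rw [bpbV, bpbV]; push_cast; field_simp, Real.cos_sub_int_mul_pi, abs_mul, abs_zpow]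
  simp

lemma bpb_repS {p : ℕ} (hp : 0 < p) (t : ℤ) : ∃ m : ℤ, (p : ℤ) ∣ m - t ∧
    |bpbU p m| ≤ Real.pi / 2 ∧ |Real.sin (bpbU p m)| = |Real.cos (bpbV p t)| := by
  have hp' : (0 : ℝ) < p := by exact_mod_cast hp
  refine ⟨t - p * ⌊(t : ℝ) / p⌋, ⟨-⌊(t : ℝ) / p⌋, by ring⟩, ?_, ?_⟩
  · have e : ((t - p * ⌊(t : ℝ) / p⌋ : ℤ) : ℝ) / p = Int.fract ((t : ℝ) / p) := by
      rw [Int.fract]; push_cast; field_simp
    have h1 := Int.fract_nonneg ((t : ℝ) / p)
    have h2 := Int.fract_lt_one ((t : ℝ) / p)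
    rw [bpbU, e, abs_le]
    constructor <;> nlinarith [Real.pi_pos]
  · rw [← bpb_shift hp t ⌊(t : ℝ) / p⌋, show ∀ m, bpbU p m = bpbV p m - Real.pi / 2 from
      fun m => by rw [bpbU, bpbV]; ring, Real.sin_sub_pi_div_two, abs_neg]

lemma bpb_repC {p : ℕ} (hp : 0 < p) (t : ℤ) : ∃ n : ℤ, (p : ℤ) ∣ n - t ∧
    |bpbV p n| ≤ Real.pi / 2 ∧ Real.cos (bpbV p n) = |Real.cos (bpbV p t)| := by
  have hp' : (0 : ℝ) < p := by exact_mod_cast hp
  have h : |bpbV p (t - p * round ((t : ℝ) / p))| ≤ Real.pi / 2 := by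
    have e : ((t - p * round ((t : ℝ) / p) : ℤ) : ℝ) / p = (t : ℝ) / p - round ((t : ℝ) / p) := by
      push_cast; field_simp
    have h1 := abs_sub_round ((t : ℝ) / p)
    rw [bpbV, e, abs_mul, abs_of_pos Real.pi_pos]
    nlinarith [Real.pi_pos]
  refine ⟨t - p * round ((t : ℝ) / p), ⟨-round ((t : ℝ) / p), by ring⟩, h, ?_⟩
  rw [← bpb_shift hp t (round ((t : ℝ) / p)),
    abs_of_nonneg (Real.cos_nonneg_of_mem_Icc (abs_le.1 h))]

lemma bpb_chart {p A : ℕ} (hp : 0 < p) {w : ℝ} {α β : ℤ} {j : ℕ}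
    (h1 : |Real.cos (bpbV p (α * j))| ≤ |Real.cos (bpbV p (β * j))|)
    (h2 : abs (|Real.cos (bpbV p (α * j))| * |Real.cos (bpbV p (β * j))| - w) ≤ ((p : ℝ) ^ A)⁻¹) :
    bpbQ w p A α β j ∨ bpbQ (-w) p A α β j := by
  obtain ⟨m, m1, m2, m3⟩ := bpb_repS hp (α * j)
  obtain ⟨n, n1, n2, n3⟩ := bpb_repC hp (β * j)
  rw [← m3, ← n3] at h1 h2
  rcases le_total 0 (Real.sin (bpbU p m)) with h | h
  · exact Or.inl ⟨m, n, m1, n1, m2, n2, h1, by rwa [abs_of_nonneg h] at h2⟩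
  · refine Or.inr ⟨m, n, m1, n1, m2, n2, h1, ?_⟩
    rw [abs_of_nonpos h, ← abs_neg] at h2
    rwa [show Real.sin (bpbU p m) * Real.cos (bpbV p n) - -w =
      -(-Real.sin (bpbU p m) * Real.cos (bpbV p n) - w) by ring]

lemma bpbQ.mono {w : ℝ} {p A A' : ℕ} {α β : ℤ} {j : ℕ} (hp : 0 < p) (h : bpbQ w p A α β j)
    (hA : A' ≤ A) : bpbQ w p A' α β j := by
  obtain ⟨m, n, h1, h2, h3, h4, h5, h6⟩ := h
  exact ⟨m, n, h1, h2, h3, h4, h5, h6.trans
    (inv_anti₀ (by positivity) (pow_le_pow_right₀ (by exact_mod_cast hp) hA))⟩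

lemma bpb_E (p : ℕ) (t : ℤ) : E p t + (E p t)⁻¹ = (2 * Real.cos (2 * bpbV p t) : ℝ) := by
  rw [E, ← Complex.exp_neg, bpbV]
  push_cast
  rw [Complex.two_cos]
  congr 2 <;> ring

lemma bpb_PV (k c : ℤ) (p : ℕ) (a b : ℤ) (j : ℕ) : ‖PV k c (E p (a * j)) (E p (b * j))‖ =
    |k + 4 * c * (Real.cos (bpbV p ((a + b) * j)) * Real.cos (bpbV p ((a - b) * j)))| := by
  have e := Real.cos_add_cos (2 * bpbV p (a * j)) (2 * bpbV p (b * j))
  rw [show (2 * bpbV p (a * j) + 2 * bpbV p (b * j)) / 2 = bpbV p ((a + b) * j) by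
      simp only [bpbV]; push_cast; ring,
    show (2 * bpbV p (a * j) - 2 * bpbV p (b * j)) / 2 = bpbV p ((a - b) * j) by
      simp only [bpbV]; push_cast; ring] at e
  rw [PV, add_assoc (_ + _), bpb_E, bpb_E, ← Real.norm_eq_abs, ← Complex.norm_real]
  congr 1
  rw [← Complex.ofReal_add, ← mul_add, e]
  push_cast
  ring

theorem bp (h : SBPa) : SBP := by
  classical
  rintro k c ⟨k0, k1, -⟩
  have c1 : (1 : ℝ) ≤ c := by
    have := abs_nonneg k
    exact_mod_cast (show (1 : ℤ) ≤ c by omega)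
  have k2 : |(k : ℝ)| < 4 * c := by exact_mod_cast k1
  have k3 : 0 < |(k : ℝ)| := abs_pos.2 (by exact_mod_cast k0)
  obtain ⟨w, hw⟩ : ∃ w : ℝ, w = |(k : ℝ)| / (4 * c) := ⟨_, rfl⟩
  have w0 : 0 < w := by rw [hw]; positivity
  have w1 : |w| < 1 := by rw [abs_of_pos w0, hw, div_lt_one (by positivity)]; exact k2
  obtain ⟨C₁, A₁, p₁, h₁⟩ := bpb_core h w0.ne' w1
  obtain ⟨C₂, A₂, p₂, h₂⟩ := bpb_core h (neg_ne_zero.2 w0.ne') (by rwa [abs_neg])
  refine ⟨2 * C₁ + 2 * C₂, A₁ + A₂, p₁ + p₂ + 3, fun p hp hp0 a b hab S hS hQ => ?_⟩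
  have hp' := Nat.prime_iff_prime_int.1 hp
  have n1 : ¬ ((p : ℤ) ∣ a + b ∧ (p : ℤ) ∣ a - b) := fun ⟨e1, e2⟩ => by
    have n2 : ¬ (p : ℤ) ∣ 2 := fun e => by have := Int.le_of_dvd two_pos e; omega
    exact hab ⟨(hp'.dvd_or_dvd ((e1.add e2).trans (Eq.dvd (by ring : _ = 2 * a)))).resolve_left n2,
      (hp'.dvd_or_dvd ((e1.sub e2).trans (Eq.dvd (by ring : _ = 2 * b)))).resolve_left n2⟩
  have n2 : ¬ ((p : ℤ) ∣ a - b ∧ (p : ℤ) ∣ a + b) := fun e => n1 e.symm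
  have b1 := h₁ p hp (by omega) _ _ n1 (S.filter (bpbQ w p A₁ (a + b) (a - b)))
    ((filter_subset _ _).trans hS) fun j hj => (mem_filter.1 hj).2
  have b2 := h₂ p hp (by omega) _ _ n1 (S.filter (bpbQ (-w) p A₂ (a + b) (a - b)))
    ((filter_subset _ _).trans hS) fun j hj => (mem_filter.1 hj).2
  have b3 := h₁ p hp (by omega) _ _ n2 (S.filter (bpbQ w p A₁ (a - b) (a + b)))
    ((filter_subset _ _).trans hS) fun j hj => (mem_filter.1 hj).2
  have b4 := h₂ p hp (by omega) _ _ n2 (S.filter (bpbQ (-w) p A₂ (a - b) (a + b)))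
    ((filter_subset _ _).trans hS) fun j hj => (mem_filter.1 hj).2
  have sub : S ⊆ (S.filter (bpbQ w p A₁ (a + b) (a - b)) ∪
      S.filter (bpbQ (-w) p A₂ (a + b) (a - b))) ∪ (S.filter (bpbQ w p A₁ (a - b) (a + b)) ∪
      S.filter (bpbQ (-w) p A₂ (a - b) (a + b))) := by
    intro j hj
    have e := hQ j hj
    rw [bpb_PV] at e
    have e1 : abs (|Real.cos (bpbV p ((a + b) * j))| * |Real.cos (bpbV p ((a - b) * j))| - w) ≤
        ((p : ℝ) ^ (A₁ + A₂))⁻¹ := by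
      rw [← abs_mul]
      generalize Real.cos (bpbV p ((a + b) * j)) * Real.cos (bpbV p ((a - b) * j)) = x at *
      have a1 := abs_abs_sub_abs_le_abs_sub (4 * c * x) (-k)
      rw [abs_neg, sub_neg_eq_add, add_comm, abs_mul, abs_of_pos (by positivity : (0 : ℝ) < 4 * c),
        show 4 * c * |x| - |(k : ℝ)| = 4 * c * (|x| - w) by rw [hw]; field_simp, abs_mul,
        abs_of_pos (by positivity : (0 : ℝ) < 4 * c)] at a1
      nlinarith [abs_nonneg (|x| - w)]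
    simp only [mem_union, mem_filter, hj, true_and]
    rcases le_total |Real.cos (bpbV p ((a + b) * j))| |Real.cos (bpbV p ((a - b) * j))| with e2 | e2
    · exact Or.inl ((bpb_chart hp.pos e2 e1).imp (·.mono hp.pos (by omega))
        (·.mono hp.pos (by omega)))
    · exact Or.inr ((bpb_chart hp.pos e2 (by rwa [mul_comm])).imp (·.mono hp.pos (by omega))
        (·.mono hp.pos (by omega)))
  have t := (card_le_card sub).trans ((card_union_le _ _).trans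
    (add_le_add (card_union_le _ _) (card_union_le _ _)))
  have t' : (S.card : ℝ) ≤ _ := Nat.cast_le.2 t
  push_cast at t'
  linarith

end Pool.Agent.MP_c1891a_nt.H91
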