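import Pool.Agent.MP_c1891a_nt.H43.Spec3
import Pool.Agent.MP_c1891a_nt.H68.Many

/-! Many roots outside a finite set, or a bounded relation: complex coefficients. -/

namespace Pool.Agent.MP_c1891a_nt.H43

open Finset Polynomial

/-- no primitive linear form is constant on the support. -/
theorem manyC_nonconst (S : Finset (ℤ × ℤ)) (c : ℤ × ℤ → ℂ) (hc0 : ∀ μ ∈ S, c μ ≠ 0)
    (hP : NoCosetS S c) (hM : 2 ≤ S.card) (v₁ v₂ : ℤ) (hv : IsCoprime v₁ v₂) :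
    ∃ μ ∈ S, ∃ ν ∈ S, v₁ * μ.1 + v₂ * μ.2 ≠ v₁ * ν.1 + v₂ * ν.2 := by
  by_contra hc
  push Not at hc
  obtain ⟨μ, hμ, ν, hν, hne⟩ := one_lt_card.1 hM
  have hv0 : v₁ ≠ 0 ∨ v₂ ≠ 0 := by
    by_contra h
    push Not at h
    rw [h.1, h.2] at hv
    exact not_isCoprime_zero_zero hv
  obtain ⟨a, b, hab⟩ := hv
  obtain ⟨p, e, he, hp, hr⟩ := many_pack S c
    (fun μ => -b * μ.1 + a * μ.2) fun x hx y hy h => many_coord hab (hc x hx y hy) h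
  obtain ⟨ρ, h0, h1⟩ := many_root p (e μ) (e ν) (fun h => hne (he hμ hν h))
    (by rw [hp μ hμ]; exact hc0 μ hμ) (by rw [hp ν hν]; exact hc0 ν hν)
  obtain ⟨t, ht, h⟩ := hP (ρ ^ (-b)) (ρ ^ a) (zpow_ne_zero _ h0) (zpow_ne_zero _ h0) v₁ v₂ hv0
  refine h ?_
  rw [← zero_mul (t ^ (v₁ * μ.1 + v₂ * μ.2)), ← (hr ρ h0).1 h1, sum_mul]
  refine sum_congr rfl fun x hx => ?_
  rw [← hc x hx μ hμ, zpow_add₀ ht, zpow_add₀ h0, mul_zpow, mul_zpow, ← zpow_mul, ← zpow_mul,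
    ← zpow_mul, ← zpow_mul]
  ring

/-- the support is not collinear. -/
theorem manyC_det (S : Finset (ℤ × ℤ)) (c : ℤ × ℤ → ℂ) (hc0 : ∀ μ ∈ S, c μ ≠ 0)
    (hP : NoCosetS S c) (hM : 2 ≤ S.card) :
    ∃ μ ∈ S, ∃ ν ∈ S, ∃ κ ∈ S,
      (ν.1 - μ.1) * (κ.2 - μ.2) - (ν.2 - μ.2) * (κ.1 - μ.1) ≠ 0 := by
  by_contra hc
  push Not at hc
  obtain ⟨μ, hμ, ν, hν, hne⟩ := one_lt_card.1 hM
  have hg : 0 < Int.gcd (ν.1 - μ.1) (ν.2 - μ.2) := by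
    rw [Int.gcd_pos_iff]
    by_contra h
    push Not at h
    exact hne (Prod.ext (by linarith [h.1]) (by linarith [h.2]))
  obtain ⟨e₁, e₂, he, h1, h2⟩ := Int.exists_gcd_one hg
  generalize Int.gcd (ν.1 - μ.1) (ν.2 - μ.2) = g at hg h1 h2
  have key : ∀ κ ∈ S, -e₂ * κ.1 + e₁ * κ.2 = -e₂ * μ.1 + e₁ * μ.2 := by
    intro κ hκ
    have h := hc μ hμ ν hν κ hκ
    rw [h1, h2] at h
    refine mul_left_cancel₀ (show (g : ℤ) ≠ 0 by exact_mod_cast hg.ne') ?_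
    linear_combination h
  obtain ⟨x, hx, y, hy, h⟩ := manyC_nonconst S c hc0 hP hM (-e₂) e₁
    (Int.isCoprime_iff_gcd_eq_one.2 he).symm.neg_left
  exact h ((key x hx).trans (key y hy).symm)

/-- the exceptional values for a fixed direction. -/
theorem manyC_small (S : Finset (ℤ × ℤ)) (c : ℤ × ℤ → ℂ) (hc0 : ∀ μ ∈ S, c μ ≠ 0)
    (hP : NoCosetS S c) (hM : 2 ≤ S.card) (Z : Finset (ℂ × ℂ)) (v₁ v₂ : ℤ) :
    ∃ Θ : Set ℂ, Θ.Finite ∧ ∀ η₁ η₂ : ℂ, η₁ ≠ 0 → η₂ ≠ 0 → IsCoprime v₁ v₂ →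
      (∀ α, α ≠ 0 → (FS S c η₁ η₂ v₁ v₂).eval α = 0 → (η₁ * α ^ v₁, η₂ * α ^ v₂) ∈ Z) →
      η₁ ^ (-v₂) * η₂ ^ v₁ ∈ Θ := by
  by_cases hv : IsCoprime v₁ v₂
  swap
  · exact ⟨∅, Set.finite_empty, fun _ _ _ _ h => absurd h hv⟩
  obtain ⟨μ, hμ, ν, hν, hne⟩ := manyC_nonconst S c hc0 hP hM v₁ v₂ hv
  obtain ⟨a, b, hab⟩ := hv
  have fin : ∀ κ ∈ S, ∃ Θ : Set ℂ, Θ.Finite ∧ ∀ η₁ η₂ : ℂ, η₁ ≠ 0 → η₂ ≠ 0 →
      (FS S c η₁ η₂ v₁ v₂).coeff (exS S v₁ v₂ κ) = 0 → η₁ ^ (-v₂) * η₂ ^ v₁ ∈ Θ := by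
    intro κ hκ
    have hx : ∀ x ∈ S.filter fun x => exS S v₁ v₂ x = exS S v₁ v₂ κ,
        v₁ * x.1 + v₂ * x.2 = v₁ * κ.1 + v₂ * κ.2 := by
      intro x hx
      have h1 := (exS_cast v₁ v₂ (mem_filter.1 hx).1).1
      rw [(mem_filter.1 hx).2, (exS_cast v₁ v₂ hκ).1] at h1
      linarith
    obtain ⟨p, e, _, hp, hr⟩ := many_pack
      (S.filter fun x => exS S v₁ v₂ x = exS S v₁ v₂ κ) c
      (fun μ => -b * μ.1 + a * μ.2) fun x h1 y h2 h =>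
        many_coord hab ((hx x h1).trans (hx y h2).symm) h
    have hp0 : p ≠ 0 := fun h => hc0 κ hκ (by
      rw [← hp κ (mem_filter.2 ⟨hκ, rfl⟩), h, coeff_zero])
    refine ⟨{ρ | p.IsRoot ρ}, finite_setOfPred_isRoot hp0, fun η₁ η₂ h1 h2 h => ?_⟩
    refine (hr _ (mul_ne_zero (zpow_ne_zero _ h1) (zpow_ne_zero _ h2))).2 ?_
    unfold FS at h
    rw [many_coeff] at h
    refine mul_right_cancel₀ (mul_ne_zero (zpow_ne_zero (a * (v₁ * κ.1 + v₂ * κ.2)) h1)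
      (zpow_ne_zero (b * (v₁ * κ.1 + v₂ * κ.2)) h2)) ?_
    rw [zero_mul, ← h, sum_mul]
    refine sum_congr rfl fun x hx' => ?_
    have e1 : x.1 = -v₂ * (-b * x.1 + a * x.2) + a * (v₁ * κ.1 + v₂ * κ.2) := by
      linear_combination a * hx x hx' - x.1 * hab
    have e2 : x.2 = v₁ * (-b * x.1 + a * x.2) + b * (v₁ * κ.1 + v₂ * κ.2) := by
      linear_combination b * hx x hx' - x.2 * hab
    have f1 : η₁ ^ x.1 = η₁ ^ (-v₂ * (-b * x.1 + a * x.2)) * η₁ ^ (a * (v₁ * κ.1 + v₂ * κ.2)) := by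
      rw [← zpow_add₀ h1, ← e1]
    have f2 : η₂ ^ x.2 = η₂ ^ (v₁ * (-b * x.1 + a * x.2)) * η₂ ^ (b * (v₁ * κ.1 + v₂ * κ.2)) := by
      rw [← zpow_add₀ h2, ← e2]
    rw [f1, f2, mul_zpow, ← zpow_mul, ← zpow_mul]
    ring
  obtain ⟨Θ₁, a1, b1⟩ := fin μ hμ
  obtain ⟨Θ₂, a2, b2⟩ := fin ν hν
  refine ⟨(fun z : ℂ × ℂ => z.1 ^ (-v₂) * z.2 ^ v₁) '' Z ∪ (Θ₁ ∪ Θ₂),
    (Z.finite_toSet.image _).union (a1.union a2), fun η₁ η₂ h1 h2 _ h => ?_⟩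
  by_cases c1 : (FS S c η₁ η₂ v₁ v₂).coeff (exS S v₁ v₂ μ) = 0
  · exact Or.inr (Or.inl (b1 _ _ h1 h2 c1))
  by_cases c2 : (FS S c η₁ η₂ v₁ v₂).coeff (exS S v₁ v₂ ν) = 0
  · exact Or.inr (Or.inr (b2 _ _ h1 h2 c2))
  obtain ⟨α, h0, hr⟩ := many_root _ _ _ (fun h => hne (by
    have e1 := (exS_cast v₁ v₂ hμ).1
    rw [h, (exS_cast v₁ v₂ hν).1] at e1
    linarith)) c1 c2
  refine Or.inl ⟨_, h α h0 hr, ?_⟩
  have : α ^ (v₁ * -v₂) * α ^ (v₂ * v₁) = 1 := by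
    rw [← zpow_add₀ h0, show v₁ * -v₂ + v₂ * v₁ = 0 by ring, zpow_zero]
  simp only [mul_zpow, ← zpow_mul]
  linear_combination η₁ ^ (-v₂) * η₂ ^ v₁ * this

open Classical in
/-- the roots with a point in `Z` are few. -/
theorem manyC_bad (S : Finset (ℤ × ℤ)) (c : ℤ × ℤ → ℂ) (Z : Finset (ℂ × ℂ)) (η₁ η₂ : ℂ) (v₁ v₂ : ℤ) (h1 : η₁ ≠ 0) (h2 : η₂ ≠ 0)
    (hv : IsCoprime v₁ v₂) :
    ((FS S c η₁ η₂ v₁ v₂).roots.filter fun α => α ≠ 0).card ≤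
      ((FS S c η₁ η₂ v₁ v₂).roots.filter fun α => α ≠ 0 ∧ (η₁ * α ^ v₁, η₂ * α ^ v₂) ∉ Z).card +
        Z.card * S.card := by
  obtain ⟨a, b, hab⟩ := hv
  have hs : (FS S c η₁ η₂ v₁ v₂).support.card ≤ S.card := by
    refine le_trans (card_le_card fun j hj => ?_) (card_image_le (f := exS S v₁ v₂))
    rw [mem_support_iff] at hj
    unfold FS at hj
    rw [many_coeff] at hj
    obtain ⟨μ, hμ, _⟩ := exists_ne_zero_of_sum_ne_zero hj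
    exact mem_image.2 ⟨μ, (mem_filter.1 hμ).1, (mem_filter.1 hμ).2⟩
  generalize FS S c η₁ η₂ v₁ v₂ = F at hs ⊢
  have h3 := congrArg Multiset.card (Multiset.filter_add_not
    (fun α => (η₁ * α ^ v₁, η₂ * α ^ v₂) ∉ Z) (F.roots.filter fun α => α ≠ 0))
  rw [Multiset.card_add, Multiset.filter_filter, Multiset.filter_filter] at h3
  have h4 : (F.roots.filter fun α => (η₁ * α ^ v₁, η₂ * α ^ v₂) ∉ Z ∧ α ≠ 0) =
      F.roots.filter fun α => α ≠ 0 ∧ (η₁ * α ^ v₁, η₂ * α ^ v₂) ∉ Z :=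
    Multiset.filter_congr fun α _ => and_comm
  rw [← h3, h4]
  refine Nat.add_le_add_left ?_ _
  rw [← Multiset.toFinset_sum_count_eq]
  refine (sum_le_card_nsmul _ _ S.card fun α hα => ?_).trans ?_
  · rw [Multiset.mem_toFinset, Multiset.mem_filter] at hα
    refine (Multiset.count_le_of_le α (Multiset.filter_le _ _)).trans ?_
    rw [count_roots]
    by_contra hc
    exact (mem_roots'.1 hα.1).1 (many_sparse α hα.2.2 _ F hs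
      ((pow_dvd_pow _ (not_le.1 hc).le).trans (pow_rootMultiplicity_dvd F α)))
  · rw [smul_eq_mul]
    refine Nat.mul_le_mul_right _ (card_le_card_of_injOn
      (fun α => (η₁ * α ^ v₁, η₂ * α ^ v₂)) (fun α hα => ?_) fun α hα β hβ h => ?_)
    · rw [mem_coe, Multiset.mem_toFinset, Multiset.mem_filter] at hα
      exact not_not.1 hα.2.1
    · rw [mem_coe, Multiset.mem_toFinset, Multiset.mem_filter] at hα hβ
      have k : ∀ γ : ℂ, γ ≠ 0 → γ = (γ ^ v₁) ^ a * (γ ^ v₂) ^ b := fun γ hγ => by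
        rw [← zpow_mul, ← zpow_mul, ← zpow_add₀ hγ, show v₁ * a + v₂ * b = 1 by linarith, zpow_one]
      rw [k α hα.2.2, k β hβ.2.2, mul_left_cancel₀ h1 (congrArg Prod.fst h),
        mul_left_cancel₀ h2 (congrArg Prod.snd h)]

open Classical in
/-- many nonzero roots for a long vector. -/
theorem manyC_large (S : Finset (ℤ × ℤ)) (c : ℤ × ℤ → ℂ) (hc0 : ∀ μ ∈ S, c μ ≠ 0)
    (hP : NoCosetS S c) (hM : 2 ≤ S.card) (η₁ η₂ : ℂ) (v₁ v₂ : ℤ) (h1 : η₁ ≠ 0)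
    (h2 : η₂ ≠ 0) (hv : IsCoprime v₁ v₂) (hl : 2 * RS S < v₁.natAbs ∨ 2 * RS S < v₂.natAbs) :
    v₁.natAbs + v₂.natAbs ≤ 8 * RS S * ((FS S c η₁ η₂ v₁ v₂).roots.filter fun α => α ≠ 0).card := by
  have he : Set.InjOn (exS S v₁ v₂) S := by
    intro μ hμ ν hν h
    have e1 := (exS_cast v₁ v₂ hμ).1
    rw [h, (exS_cast v₁ v₂ hν).1] at e1
    obtain ⟨a1, a2⟩ := le_RS hμ
    obtain ⟨b1, b2⟩ := le_RS hν
    rcases hl with hl | hl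
    · obtain ⟨c1, c2⟩ := many_inj (d₁ := μ.1 - ν.1) (d₂ := μ.2 - ν.2) hv hl (by omega) (by linarith)
      exact Prod.ext (by linarith) (by linarith)
    · obtain ⟨c1, c2⟩ := many_inj (d₁ := μ.2 - ν.2) (d₂ := μ.1 - ν.1) hv.symm hl (by omega)
        (by linarith)
      exact Prod.ext (by linarith) (by linarith)
  have hc : ∀ μ ∈ S, (FS S c η₁ η₂ v₁ v₂).coeff (exS S v₁ v₂ μ) ≠ 0 := by
    intro μ hμ
    unfold FS
    rw [many_coeff_inj _ _ _ he μ hμ]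
    exact mul_ne_zero (mul_ne_zero (hc0 μ hμ) (zpow_ne_zero _ h1)) (zpow_ne_zero _ h2)
  have hd : ∀ μ ∈ S, ∀ ν ∈ S,
      (v₁ * (ν.1 - μ.1) + v₂ * (ν.2 - μ.2)).natAbs ≤
        ((FS S c η₁ η₂ v₁ v₂).roots.filter fun α => α ≠ 0).card := by
    intro μ hμ ν hν
    have a1 := many_gap _ _ _ (hc μ hμ) (hc ν hν)
    have a2 := many_gap _ _ _ (hc ν hν) (hc μ hμ)
    have e1 := (exS_cast v₁ v₂ hμ).1
    have e2 := (exS_cast v₁ v₂ hν).1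
    rw [mul_sub, mul_sub]
    omega
  generalize ((FS S c η₁ η₂ v₁ v₂).roots.filter fun α => α ≠ 0).card = D at hd ⊢
  obtain ⟨μ, hμ, ν, hν, κ, hκ, hdet⟩ := manyC_det S c hc0 hP hM
  obtain ⟨a1, a2⟩ := le_RS hμ
  obtain ⟨b1, b2⟩ := le_RS hν
  obtain ⟨c1, c2⟩ := le_RS hκ
  have k : ∀ v d x y p q : ℤ, d ≠ 0 → v * d = x * p - y * q → x.natAbs ≤ D → y.natAbs ≤ D →
      p.natAbs ≤ 2 * RS S → q.natAbs ≤ 2 * RS S → v.natAbs ≤ 4 * (RS S * D) := by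
    intro v d x y p q hd0 h hx hy hp hq
    have i1 : v.natAbs ≤ (v * d).natAbs := by
      rw [Int.natAbs_mul]; exact Nat.le_mul_of_pos_right _ (Int.natAbs_pos.2 hd0)
    have i2 := Int.natAbs_sub_le (x * p) (y * q)
    rw [← h, Int.natAbs_mul x, Int.natAbs_mul y] at i2
    have i3 := Nat.mul_le_mul hx hp
    have i4 := Nat.mul_le_mul hy hq
    have i5 : D * (2 * RS S) = 2 * (RS S * D) := by ring
    omega
  have k1 := k v₁ _ _ _ (κ.2 - μ.2) (ν.2 - μ.2) hdet (by ring) (hd μ hμ ν hν) (hd μ hμ κ hκ)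
    (by omega) (by omega)
  have k2 := k v₂ _ _ _ (ν.1 - μ.1) (κ.1 - μ.1) hdet (by ring) (hd μ hμ κ hκ) (hd μ hμ ν hν)
    (by omega) (by omega)
  rw [mul_assoc]
  omega

theorem sManyC : SManyC := by
  classical
  intro S c hc0 hP hM Z
  obtain ⟨B₀, hB₀⟩ : ∃ B₀, B₀ = 16 * (RS S + 1) * (Z.card * S.card + 1) := ⟨_, rfl⟩
  choose Θ hΘ hΘ' using manyC_small S c hc0 hP hM Z
  obtain ⟨s, hs, hs'⟩ := many_order
    (⋃ v ∈ (Finset.Icc (-(B₀ : ℤ)) B₀ ×ˢ Finset.Icc (-(B₀ : ℤ)) B₀ : Finset (ℤ × ℤ)), Θ v.1 v.2)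
    (Set.Finite.biUnion (Finset.finite_toSet _) fun v _ => hΘ v.1 v.2)
  obtain ⟨K, hK⟩ : ∃ K, K = 16 * RS S + 2 * B₀ + 1 := ⟨_, rfl⟩
  have hK0 : (0 : ℝ) < K := by exact_mod_cast (show 0 < K by omega)
  refine ⟨1 / K, max B₀ s, by positivity, fun η₁ η₂ v₁ v₂ t1 t2 hv => ?_⟩
  have n1 := many_ne t1
  have n2 := many_ne t2
  have hbad := manyC_bad S c Z η₁ η₂ v₁ v₂ n1 n2 hv
  have fin : ∀ G : Multiset ℂ, G = ((FS S c η₁ η₂ v₁ v₂).roots.filter fun α =>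
      α ≠ 0 ∧ (η₁ * α ^ v₁, η₂ * α ^ v₂) ∉ Z) → v₁.natAbs + v₂.natAbs ≤ K * G.card →
      ∃ s : Multiset ℂ, s ≤ (FS S c η₁ η₂ v₁ v₂).roots ∧
        1 / (K : ℝ) * ((v₁.natAbs + v₂.natAbs : ℕ) : ℝ) ≤ s.card ∧
        ∀ α ∈ s, α ≠ 0 ∧ (η₁ * α ^ v₁, η₂ * α ^ v₂) ∉ Z := by
    intro G hG b
    refine ⟨G, hG ▸ Multiset.filter_le _ _, ?_, fun α hα => ?_⟩
    · rw [one_div, inv_mul_le_iff₀ hK0]; exact_mod_cast b
    · rw [hG] at hα; exact (Multiset.mem_filter.1 hα).2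
  obtain ⟨G, hG⟩ : ∃ G, G = ((FS S c η₁ η₂ v₁ v₂).roots.filter fun α =>
      α ≠ 0 ∧ (η₁ * α ^ v₁, η₂ * α ^ v₂) ∉ Z) := ⟨_, rfl⟩
  rw [← hG] at hbad
  by_cases hl : v₁.natAbs ≤ B₀ ∧ v₂.natAbs ≤ B₀
  · by_cases h0 : G.card = 0
    · left
      have hv0 : v₁ ≠ 0 ∨ v₂ ≠ 0 := by
        by_contra h
        push Not at h
        rw [h.1, h.2] at hv
        exact not_isCoprime_zero_zero hv
      have hF : FS S c η₁ η₂ v₁ v₂ ≠ 0 := by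
        obtain ⟨t, ht, h⟩ := hP η₁ η₂ n1 n2 v₁ v₂ hv0
        intro h'
        have := FS_eval S c η₁ η₂ v₁ v₂ ht
        rw [h', eval_zero] at this
        exact mul_ne_zero (pow_ne_zero _ ht) h this.symm
      have hm := le_max_left B₀ s
      refine ⟨by rw [Int.abs_eq_natAbs]; omega, by rw [Int.abs_eq_natAbs]; omega, s, hs,
        le_max_right _ _, hs' _ ?_ (many_tor t1 t2 _ _)⟩
      refine Set.mem_iUnion₂.2 ⟨(v₁, v₂), ?_, hΘ' v₁ v₂ η₁ η₂ n1 n2 hv fun α a b => ?_⟩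
      · simp only [mem_product, Finset.mem_Icc]
        omega
      · by_contra c1
        have : α ∈ G := hG ▸ Multiset.mem_filter.2 ⟨mem_roots'.2 ⟨hF, b⟩, a, c1⟩
        rw [Multiset.card_eq_zero.1 h0] at this
        exact Multiset.notMem_zero _ this
    · right
      refine fin G hG ?_
      have a2 : K ≤ K * G.card := Nat.le_mul_of_pos_right _ (by omega)
      omega
  · right
    have b1 : 16 * (RS S + 1) ≤ B₀ := hB₀ ▸ Nat.le_mul_of_pos_right _ (by omega)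
    have b2 := manyC_large S c hc0 hP hM η₁ η₂ v₁ v₂ n1 n2 hv (by omega)
    generalize ((FS S c η₁ η₂ v₁ v₂).roots.filter fun α => α ≠ 0).card = D at hbad b2
    generalize Z.card * S.card = W at hbad hB₀
    have b3 : 2 * (W + 1) ≤ D := by
      by_contra h
      have : 8 * RS S * D ≤ 8 * (RS S + 1) * (2 * (W + 1)) := Nat.mul_le_mul (by omega) (by omega)
      have e : 8 * (RS S + 1) * (2 * (W + 1)) = 16 * (RS S + 1) * (W + 1) := by ring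
      omega
    refine fin G hG ?_
    calc v₁.natAbs + v₂.natAbs ≤ 8 * RS S * (2 * G.card) :=
          b2.trans (Nat.mul_le_mul_left _ (by omega))
      _ = 16 * RS S * G.card := by ring
      _ ≤ K * G.card := Nat.mul_le_mul_right _ (by omega)

end Pool.Agent.MP_c1891a_nt.H43
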